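import Mathlib
set_option autoImplicit false
namespace Pool.Agent.Helper648.HS
open Set Topology

/-- generalized ordered space -/
structure GO (X : Type) [LinearOrder X] [TopologicalSpace X] : Prop where
  ray : ∀ a : X, IsOpen (Set.Ioi a) ∧ IsOpen (Set.Iio a)
  bas : TopologicalSpace.IsTopologicalBasis {U : Set X | IsOpen U ∧ U.OrdConnected}

/-- countable compactness (countable open covers by open sets of the ambient space) -/
def CC {X : Type} [TopologicalSpace X] (k : Set X) : Prop :=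
  ∀ u : ℕ → Set X, (∀ n, IsOpen (u n)) → k ⊆ ⋃ n, u n → ∃ t : Finset ℕ, k ⊆ ⋃ n ∈ t, u n

/-- Σ-structure on the subspace `Y` -/
structure Sig {X : Type} [TopologicalSpace X] (Y : Set X) (F : ℕ → Set (Set X))
    (K : Set (Set X)) : Prop where
  sub : ∀ n, ∀ s ∈ F n, s ⊆ Y
  lf : ∀ n, ∀ y ∈ Y, ∃ V, IsOpen V ∧ y ∈ V ∧ {s ∈ F n | (s ∩ V).Nonempty}.Finite
  ksub : ∀ k ∈ K, k ⊆ Y
  cov : ∀ y ∈ Y, ∃ k ∈ K, y ∈ k
  cc : ∀ k ∈ K, CC k
  net : ∀ k ∈ K, ∀ U, IsOpen U → k ⊆ U → ∃ n, ∃ s ∈ F n, k ⊆ s ∧ s ⊆ U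

/-- `A` is an uncountable well-ordered (by `<`) set with countable initial segments -/
structure Om {X : Type} [LinearOrder X] (A : Set X) : Prop where
  unc : ¬ A.Countable
  seg : ∀ a ∈ A, (A ∩ Set.Iio a).Countable
  wf : A.WellFoundedOn (· < ·)

/-- countable Σ-structure on the subspace `Z` -/
structure CSig {X : Type} [TopologicalSpace X] (Z : Set X) (F : Set (Set X))
    (K : Set (Set X)) : Prop where
  cnt : F.Countable
  ksub : ∀ k ∈ K, k ⊆ Z
  cov : ∀ y ∈ Z, ∃ k ∈ K, y ∈ k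
  cc : ∀ k ∈ K, CC k
  net : ∀ k ∈ K, ∀ U, IsOpen U → k ⊆ U → ∃ s ∈ F, k ⊆ s ∧ s ⊆ U

section
variable {X : Type} [LinearOrder X] [TopologicalSpace X]

theorem GO.dual (h : GO X) : GO Xᵒᵈ := by
  refine ⟨fun a => ⟨(h.ray (OrderDual.ofDual a)).2, (h.ray (OrderDual.ofDual a)).1⟩, ?_⟩
  have := h.bas
  have e : {U : Set Xᵒᵈ | IsOpen U ∧ U.OrdConnected} = {U : Set X | IsOpen U ∧ U.OrdConnected} := by
    ext U
    constructor
    · rintro ⟨h1, h2⟩
      refine ⟨h1, ⟨fun a ha b hb c hc => ?_⟩⟩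
      exact h2.out (x := OrderDual.toDual b) (y := OrderDual.toDual a) hb ha ⟨hc.2, hc.1⟩
    · rintro ⟨h1, h2⟩
      refine ⟨h1, ⟨fun a ha b hb c hc => ?_⟩⟩
      exact h2.out (x := OrderDual.ofDual b) (y := OrderDual.ofDual a) hb ha ⟨hc.2, hc.1⟩
  rw [e]
  exact this

/-- convex neighbourhoods -/
theorem GO.nhd (h : GO X) {x : X} {U : Set X} (hU : IsOpen U) (hx : x ∈ U) :
    ∃ V, IsOpen V ∧ V.OrdConnected ∧ x ∈ V ∧ V ⊆ U := by
  obtain ⟨V, ⟨h1, h2⟩, h3, h4⟩ := h.bas.exists_subset_of_mem_open hx hU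
  exact ⟨V, h1, h2, h3, h4⟩

theorem GO.closedSingleton (h : GO X) (x : X) : IsClosed ({x} : Set X) := by
  have : ({x} : Set X)ᶜ = Iio x ∪ Ioi x := by
    ext y; simp
  rw [← isOpen_compl_iff, this]
  exact (h.ray x).2.union (h.ray x).1

omit [TopologicalSpace X] in
/-- the records of a well ordering form a well ordered cofinal subset -/
theorem exists_cofinal (hwf : ∀ W : Set X, W.WellFoundedOn (· < ·) → W.Countable) (G : Set X) :
    ∃ P ⊆ G, P.Countable ∧ ∀ g ∈ G, ∃ p ∈ P, g ≤ p := by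
  classical
  let r : X → X → Prop := WellOrderingRel
  have hr : WellFounded r := (inferInstance : IsWellFounded X WellOrderingRel).wf
  let A : Set X := {g | g ∈ G ∧ ∀ g' ∈ G, r g' g → g' < g}
  have hAr : ∀ a ∈ A, ∀ b ∈ A, a < b → r a b := by
    intro a ha b hb hab
    rcases trichotomous_of r a b with h | h | h
    · exact h
    · exact absurd h hab.ne
    · exact absurd (ha.2 b hb.1 h) (not_lt.mpr hab.le)
  refine ⟨A, fun a ha => ha.1, hwf A ?_, ?_⟩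
  · rw [Set.wellFoundedOn_iff]
    refine Subrelation.wf ?_ hr
    rintro a b ⟨h1, h2, h3⟩
    exact hAr a h2 b h3 h1
  · intro g hg
    obtain ⟨a, ⟨ha1, ha2⟩, ha3⟩ := hr.has_min {g' | g' ∈ G ∧ g ≤ g'} ⟨g, hg, le_refl g⟩
    refine ⟨a, ⟨ha1, fun g' hg' hlt => ?_⟩, ha2⟩
    by_contra hcon
    exact ha3 g' ⟨hg', ha2.trans (not_lt.mp hcon)⟩ hlt

/-- closing-off -/
theorem exists_closed {X : Type} (op : X → Set X) (hop : ∀ x, (op x).Countable) (D0 : Set X)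
    (hD0 : D0.Countable) : ∃ D, D.Countable ∧ D0 ⊆ D ∧ ∀ x ∈ D, op x ⊆ D := by
  let D : ℕ → Set X := fun n => Nat.rec D0 (fun _ s => s ∪ ⋃ x ∈ s, op x) n
  have hs : ∀ n, D (n + 1) = D n ∪ ⋃ x ∈ D n, op x := fun n => rfl
  have hc : ∀ n, (D n).Countable := by
    intro n
    induction n with
    | zero => exact hD0
    | succ n ih => rw [hs]; exact ih.union (ih.biUnion fun x _ => hop x)
  refine ⟨⋃ n, D n, countable_iUnion hc, subset_iUnion_of_subset 0 (subset_refl _), ?_⟩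
  intro x hx
  obtain ⟨n, hn⟩ := mem_iUnion.mp hx
  refine subset_iUnion_of_subset (n + 1) ?_
  rw [hs]
  exact (subset_biUnion_of_mem (u := fun x => op x) hn).trans subset_union_right

omit [LinearOrder X] in
/-- restriction of a countable Σ-structure to a closed subset -/
theorem CSig.closed {Z : Set X} {F K : Set (Set X)} (hC : CSig Z F K) {H : Set X}
    (hH : IsClosed H) (hHZ : H ⊆ Z) :
    CSig H ((fun s => s ∩ H) '' F) ((fun s => s ∩ H) '' K) := by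
  refine ⟨hC.cnt.image _, ?_, ?_, ?_, ?_⟩
  · rintro _ ⟨k, _, rfl⟩; exact inter_subset_right
  · intro y hy
    obtain ⟨k, hk, hyk⟩ := hC.cov y (hHZ hy)
    exact ⟨_, ⟨k, hk, rfl⟩, hyk, hy⟩
  · rintro _ ⟨k, hk, rfl⟩ u hu hku
    obtain ⟨t, ht⟩ := hC.cc k hk (fun n => u n ∪ Hᶜ) (fun n => (hu n).union hH.isOpen_compl) (by
      intro x hx
      by_cases hxH : x ∈ H
      · obtain ⟨n, hn⟩ := mem_iUnion.mp (hku ⟨hx, hxH⟩)
        exact mem_iUnion.mpr ⟨n, Or.inl hn⟩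
      · exact mem_iUnion.mpr ⟨0, Or.inr hxH⟩)
    refine ⟨t, ?_⟩
    rintro x ⟨hx, hxH⟩
    obtain ⟨n, hn, hx2⟩ := mem_iUnion₂.mp (ht hx)
    rcases hx2 with h1 | h1
    · exact mem_iUnion₂.mpr ⟨n, hn, h1⟩
    · exact absurd hxH h1
  · rintro _ ⟨k, hk, rfl⟩ U hU hkU
    obtain ⟨s, hs, h1, h2⟩ := hC.net k hk (U ∪ Hᶜ) (hU.union hH.isOpen_compl) (by
      intro x hx
      by_cases hxH : x ∈ H
      · exact Or.inl (hkU ⟨hx, hxH⟩)
      · exact Or.inr hxH)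
    refine ⟨_, ⟨s, hs, rfl⟩, inter_subset_inter_left _ h1, ?_⟩
    rintro x ⟨hx, hxH⟩
    rcases h2 hx with h3 | h3
    · exact h3
    · exact absurd hxH h3

omit [LinearOrder X] in
/-- an increasing countable cover version of countable compactness -/
theorem CC.mono_cover {k : Set X} (hk : CC k) (u : ℕ → Set X) (hu : ∀ n, IsOpen (u n))
    (hm : Monotone u) (hku : k ⊆ ⋃ n, u n) : ∃ n, k ⊆ u n := by
  obtain ⟨t, ht⟩ := hk u hu hku
  refine ⟨t.sup id, fun x hx => ?_⟩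
  obtain ⟨n, hn, hx2⟩ := mem_iUnion₂.mp (ht hx)
  exact hm (Finset.le_sup (f := id) hn) hx2

/-- the operations needed for `cell_min` -/
def Cl {X : Type} [LinearOrder X] (F : Set (Set X)) (D : Set X) : Prop :=
  ∀ s ∈ F, (∀ d ∈ D, ∀ z ∈ s, d < z → ∃ p ∈ s ∩ D, d < p ∧ p ≤ z) ∧
    (∀ z ∈ s, ∃ p ∈ s ∩ D, p ≤ z)

/-- cells of a closed-off countable set have minima which are limits from the left -/
theorem cell_min (h : GO X) {Z : Set X} {F K : Set (Set X)} (hC : CSig Z F K) (D : Set X)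
    (hD : D.Countable) (hcl : Cl F D) (z : X) (hz : z ∈ Z) (hzD : z ∉ D) :
    ∃ m ∈ Z, (∀ d ∈ D, d < z → d < m) ∧ (∀ y, (∀ d ∈ D, d < z → d < y) → m ≤ y) ∧
      ∀ W, IsOpen W → m ∈ W → ∃ d ∈ D, d < m ∧ d ∈ W := by
  obtain ⟨k, hk, hzk⟩ := hC.cov z hz
  -- claim A
  have cA : ∀ s ∈ F, k ⊆ s → ∀ d ∈ D, d < z → ∃ p ∈ s ∩ D, d < p ∧ p < z := by
    intro s hs hks d hd hdz
    obtain ⟨p, hp, h1, h2⟩ := (hcl s hs).1 d hd z (hks hzk) hdz
    exact ⟨p, hp, h1, lt_of_le_of_ne h2 (fun e => hzD (e ▸ hp.2))⟩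
  obtain ⟨s0, hs0, hks0, -⟩ := hC.net k hk univ isOpen_univ (subset_univ _)
  obtain ⟨d0, hd0, hd0z⟩ : ∃ d ∈ D, d < z := by
    obtain ⟨p, hp, h2⟩ := (hcl s0 hs0).2 z (hks0 hzk)
    exact ⟨p, hp.2, lt_of_le_of_ne h2 (fun e => hzD (e ▸ hp.2))⟩
  let Up : Set X := {y | ∀ d ∈ D, d < z → d < y}
  by_contra hno
  push Not at hno
  -- every point of k in Up is interior to Up
  have hint : ∀ m ∈ k, m ∈ Up → m ∈ interior Up := by
    intro m hm hmU
    by_cases hmin : ∀ y, y ∈ Up → m ≤ y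
    · obtain ⟨W, hW, hmW, hW2⟩ := hno m (hC.ksub k hk hm) hmU (fun y hy => hmin y hy)
      obtain ⟨V, hV, hVo, hmV, hVW⟩ := h.nhd hW hmW
      refine mem_interior.mpr ⟨V, ?_, hV, hmV⟩
      intro y hy d hd hdz
      by_contra hcon
      push Not at hcon
      have hdm : d < m := hmU d hd hdz
      exact hW2 d hd hdm (hVW (hVo.out hy hmV ⟨hcon, hdm.le⟩))
    · push Not at hmin
      obtain ⟨y, hy, hym⟩ := hmin
      refine mem_interior.mpr ⟨Ioi y, ?_, (h.ray y).1, hym⟩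
      intro w hw d hd hdz
      exact (hy d hd hdz).trans hw
  -- enumerate D ∩ Iio z
  have hDz : (D ∩ Iio z).Countable := hD.mono inter_subset_left
  have hDzne : (D ∩ Iio z).Nonempty := ⟨d0, hd0, hd0z⟩
  obtain ⟨f, hf⟩ := hDz.exists_eq_range hDzne
  have hcov : k ⊆ ⋃ n, (interior Up ∪ Iio (f n)) := by
    intro m hm
    by_cases hmU : m ∈ Up
    · exact mem_iUnion.mpr ⟨0, Or.inl (hint m hm hmU)⟩
    · simp only [Up, mem_ofPred_eq] at hmU
      push Not at hmU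
      obtain ⟨d, hd, hdz, hmd⟩ := hmU
      obtain ⟨p, hp, h1, h2⟩ := cA s0 hs0 hks0 d hd hdz
      have : p ∈ range f := hf ▸ ⟨hp.2, h2⟩
      obtain ⟨n, rfl⟩ := this
      exact mem_iUnion.mpr ⟨n, Or.inr (lt_of_le_of_lt hmd h1)⟩
  obtain ⟨t, ht⟩ := hC.cc k hk _ (fun n => isOpen_interior.union (h.ray (f n)).2) hcov
  obtain ⟨dm, hdm, hdmz, hdmt⟩ : ∃ dm ∈ D, dm < z ∧ ∀ n ∈ t, f n ≤ dm := by
    clear ht
    induction t using Finset.induction_on with
    | empty => exact ⟨d0, hd0, hd0z, by simp⟩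
    | insert a t ha ih =>
      obtain ⟨dm, h1, h2, h3⟩ := ih
      have hfa : f a ∈ D ∩ Iio z := hf ▸ mem_range_self a
      refine ⟨max dm (f a), ?_, max_lt h2 hfa.2, ?_⟩
      · rcases max_choice dm (f a) with e | e
        · rw [e]; exact h1
        · rw [e]; exact hfa.1
      · intro n hn
        rcases Finset.mem_insert.mp hn with rfl | hn
        · exact le_max_right _ _
        · exact (h3 n hn).trans (le_max_left _ _)
  obtain ⟨s, hs, hks, hsU⟩ := hC.net k hk (interior Up ∪ Iio dm)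
    (isOpen_interior.union (h.ray dm).2) (by
      intro x hx
      obtain ⟨n, hn, hx2⟩ := mem_iUnion₂.mp (ht hx)
      rcases hx2 with h1 | h1
      · exact Or.inl h1
      · exact Or.inr (lt_of_lt_of_le h1 (hdmt n hn)))
  obtain ⟨p, hp, h1, h2⟩ := cA s hs hks dm hdm hdmz
  rcases hsU hp.1 with h3 | h3
  · exact lt_irrefl _ (interior_subset h3 p hp.2 h2)
  · exact absurd h3 (not_lt.mpr h1.le)

end

end Pool.Agent.Helper648.HS
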