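import Pool.Agent.Helper648.HS.Defs
set_option autoImplicit false
/-! Faber's metrization theorem, proved by helper551 (job 99). -/
namespace Pool.Agent.Helper648.HS
open Set Topology

section Faber

variable {X : Type} [LinearOrder X] [TopologicalSpace X]

/-- local finiteness -/
def LF (E : Set X) : Prop := ∀ x, ∃ V, IsOpen V ∧ x ∈ V ∧ (E ∩ V).Finite

/-- a chosen intermediate point -/
noncomputable def cpt (e e' : X) : X :=
  open Classical in if h : (Ioo e e').Nonempty then h.some else e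

lemma cpt_mem {e e' : X} (h : (Ioo e e').Nonempty) : cpt e e' ∈ Ioo e e' := by
  unfold cpt
  rw [dif_pos h]
  exact h.some_mem

/-- consecutive elements -/
def Cons (E : Set X) (e e' : X) : Prop :=
  e ∈ E ∧ e' ∈ E ∧ e < e' ∧ (∀ f ∈ E, ¬ (e < f ∧ f < e')) ∧ (Ioo e e').Nonempty

/-- midpoints -/
def mid (E : Set X) : Set X := {z | ∃ e e', Cons E e e' ∧ z = cpt e e'}

lemma Cons.left_eq {E : Set X} {e1 e2 e' : X} (h1 : Cons E e1 e') (h2 : Cons E e2 e') : e1 = e2 := by
  rcases lt_trichotomy e1 e2 with h | h | h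
  · exact absurd ⟨h, h2.2.2.1⟩ (h1.2.2.2.1 e2 h2.1)
  · exact h
  · exact absurd ⟨h, h1.2.2.1⟩ (h2.2.2.2.1 e1 h1.1)

lemma mid_lf (h : GO X) {E : Set X} (hE : LF E) : LF (mid E) := by
  intro x
  obtain ⟨V, hV, hxV, hfin⟩ := hE x
  obtain ⟨W, hW, hWc, hxW, hWV⟩ := h.nhd hV hxV
  refine ⟨W, hW, hxW, ?_⟩
  have hfin' : (E ∩ W).Finite := hfin.subset (inter_subset_inter_right _ hWV)
  set A : Set X := ⋃ e' ∈ E ∩ W, {z | ∃ e, Cons E e e' ∧ z = cpt e e'} with hA
  set B : Set X := {z | z ∈ W ∧ ∃ e e', Cons E e e' ∧ z = cpt e e' ∧ e' ∉ W} with hB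
  have hAf : A.Finite := by
    apply hfin'.biUnion
    intro e' _
    apply Set.Subsingleton.finite
    rintro z1 ⟨e1, h1, rfl⟩ z2 ⟨e2, h2, rfl⟩
    rw [h1.left_eq h2]
  have key : ∀ z1 z2, z1 ∈ B → z2 ∈ B → ¬ z1 < z2 := by
    rintro z1 z2 ⟨hz1, e1, e1', hc1, rfl, hn1⟩ ⟨hz2, e2, e2', hc2, rfl, hn2⟩ hlt
    have m1 := cpt_mem hc1.2.2.2.2
    have m2 := cpt_mem hc2.2.2.2.2
    -- e1' ≤ e2'
    have h3 : e1' ≤ e2' := by
      by_contra hcon
      push Not at hcon
      exact hc1.2.2.2.1 e2' hc2.2.1 ⟨lt_trans m1.1 (lt_trans hlt m2.2), hcon⟩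
    have h4 : e1' ≤ e2 := by
      rcases eq_or_lt_of_le h3 with h5 | h5
      · exfalso
        subst h5
        rw [hc1.left_eq hc2] at hlt
        exact lt_irrefl _ hlt
      · by_contra hcon
        push Not at hcon
        exact hc2.2.2.2.1 e1' hc1.2.1 ⟨hcon, h5⟩
    apply hn1
    exact hWc.out hz1 hz2 ⟨m1.2.le, (lt_of_le_of_lt h4 m2.1).le⟩
  have hBf : B.Finite := by
    apply Set.Subsingleton.finite
    intro z1 h1 z2 h2
    rcases lt_trichotomy z1 z2 with h | h | h
    · exact absurd h (key _ _ h1 h2)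
    · exact h
    · exact absurd h (key _ _ h2 h1)
  refine (hAf.union hBf).subset ?_
  rintro z ⟨⟨e, e', hc, rfl⟩, hzW⟩
  by_cases he' : e' ∈ W
  · left
    rw [hA, mem_iUnion₂]
    exact ⟨e', ⟨hc.2.1, he'⟩, e, hc, rfl⟩
  · right
    exact ⟨hzW, e, e', hc, rfl, he'⟩

lemma LF.union {E F : Set X} (hE : LF E) (hF : LF F) : LF (E ∪ F) := by
  intro x
  obtain ⟨V, hV, hxV, hfin⟩ := hE x
  obtain ⟨W, hW, hxW, hfin'⟩ := hF x
  refine ⟨V ∩ W, hV.inter hW, ⟨hxV, hxW⟩, ?_⟩
  rw [union_inter_distrib_right]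
  exact (hfin.subset (by intro y hy; exact ⟨hy.1, hy.2.1⟩)).union
    (hfin'.subset (by intro y hy; exact ⟨hy.1, hy.2.2⟩))

/-- ordered relation -/
def SS (D : Set X) (a b : X) : Prop :=
  (Icc a b ∩ D).Subsingleton ∧ (∀ e ∈ D, IsOpen (Ici e) → ¬ (a < e ∧ e ≤ b)) ∧
    (∀ e ∈ D, IsOpen (Iic e) → ¬ (a ≤ e ∧ e < b))

lemma SS.mono {D D' : Set X} (hD : D ⊆ D') {a b a' b' : X} (h : SS D' a b) (ha : a ≤ a')
    (hb : b' ≤ b) : SS D a' b' := by
  refine ⟨?_, ?_, ?_⟩
  · intro x hx y hy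
    exact h.1 ⟨⟨ha.trans hx.1.1, hx.1.2.trans hb⟩, hD hx.2⟩ ⟨⟨ha.trans hy.1.1, hy.1.2.trans hb⟩, hD hy.2⟩
  · rintro e he ho ⟨h1, h2⟩
    exact h.2.1 e (hD he) ho ⟨lt_of_le_of_lt ha h1, h2.trans hb⟩
  · rintro e he ho ⟨h1, h2⟩
    exact h.2.2 e (hD he) ho ⟨ha.trans h1, lt_of_lt_of_le h2 hb⟩

lemma SS.glue {D D' : Set X} (hD : D ⊆ D') (hm : mid D ⊆ D') {a b y : X} (h1 : SS D' a y)
    (h2 : SS D' y b) (hay : a ≤ y) (hyb : y ≤ b) : SS D a b := by
  refine ⟨?_, ?_, ?_⟩
  · have key : ∀ e e', e ∈ Icc a b ∩ D → e' ∈ Icc a b ∩ D → ¬ e < e' := by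
      rintro e e' ⟨he, heD⟩ ⟨he', heD'⟩ hlt
      rcases le_or_gt e' y with h | h
      · exact hlt.ne (h1.1 ⟨⟨he.1, hlt.le.trans h⟩, hD heD⟩ ⟨⟨he'.1, h⟩, hD heD'⟩)
      rcases le_or_gt y e with h' | h'
      · exact hlt.ne (h2.1 ⟨⟨h', he.2⟩, hD heD⟩ ⟨⟨h'.trans hlt.le, he'.2⟩, hD heD'⟩)
      -- e < y < e'
      have hno : ∀ f ∈ D', ¬ (e < f ∧ f < e') := by
        rintro f hf ⟨hf1, hf2⟩
        rcases le_total f y with h3 | h3
        · exact hf1.ne (h1.1 ⟨⟨he.1, h'.le⟩, hD heD⟩ ⟨⟨he.1.trans hf1.le, h3⟩, hf⟩)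
        · exact hf2.ne (h2.1 ⟨⟨h3, hf2.le.trans he'.2⟩, hf⟩ ⟨⟨h.le, he'.2⟩, hD heD'⟩)
      have hcons : Cons D e e' := ⟨heD, heD', hlt, fun f hf => hno f (hD hf), ⟨y, h', h⟩⟩
      exact hno _ (hm ⟨e, e', hcons, rfl⟩) (cpt_mem hcons.2.2.2.2)
    intro x hx z hz
    rcases lt_trichotomy x z with h | h | h
    · exact absurd h (key _ _ hx hz)
    · exact h
    · exact absurd h (key _ _ hz hx)
  · rintro e he ho ⟨h3, h4⟩
    rcases le_or_gt e y with h | h
    · exact h1.2.1 e (hD he) ho ⟨h3, h⟩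
    · exact h2.2.1 e (hD he) ho ⟨h, h4⟩
  · rintro e he ho ⟨h3, h4⟩
    rcases lt_or_ge e y with h | h
    · exact h1.2.2 e (hD he) ho ⟨h3, h⟩
    · exact h2.2.2 e (hD he) ho ⟨h, h4⟩

/-- symmetric relation -/
def RR (D : Set X) (x y : X) : Prop := SS D (min x y) (max x y)

lemma RR.symm {D : Set X} {x y : X} (h : RR D x y) : RR D y x := by
  unfold RR at *
  rwa [min_comm, max_comm]

lemma RR.refl (D : Set X) (x : X) : RR D x x := by
  unfold RR
  rw [min_self, max_self]
  refine ⟨?_, ?_, ?_⟩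
  · intro a ha b hb
    rw [le_antisymm ha.1.2 ha.1.1, le_antisymm hb.1.2 hb.1.1]
  · rintro e _ _ ⟨h1, h2⟩
    exact absurd (lt_of_lt_of_le h1 h2) (lt_irrefl _)
  · rintro e _ _ ⟨h1, h2⟩
    exact absurd (lt_of_le_of_lt h1 h2) (lt_irrefl _)

lemma RR.mono {D D' : Set X} (hD : D ⊆ D') {x y : X} (h : RR D' x y) : RR D x y :=
  SS.mono hD h le_rfl le_rfl

lemma RR.trans {D D' : Set X} (hD : D ⊆ D') (hm : mid D ⊆ D') {x y z : X} (h1 : RR D' x y)
    (h2 : RR D' y z) : RR D x z := by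
  wlog hxz : x ≤ z generalizing x z
  · exact (this h2.symm h1.symm (le_of_not_ge hxz)).symm
  unfold RR at *
  rw [min_eq_left hxz, max_eq_right hxz]
  rcases le_total y x with h | h
  · rw [min_eq_left (h.trans hxz), max_eq_right (h.trans hxz)] at h2
    exact h2.mono hD h le_rfl
  rcases le_total z y with h' | h'
  · rw [min_eq_left h, max_eq_right h] at h1
    exact h1.mono hD le_rfl h'
  · rw [min_eq_left h, max_eq_right h] at h1
    rw [min_eq_left h', max_eq_right h'] at h2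
    exact SS.glue hD hm h1 h2 h h'

lemma RR_nhd (h : GO X) {D : Set X} (hD : LF D) (x : X) : {y | RR D x y} ∈ 𝓝 x := by
  classical
  obtain ⟨V, hV, hxV, hfin⟩ := hD x
  have hclosed : IsClosed ((D ∩ V) \ {x}) := by
    have hf : ((D ∩ V) \ {x}).Finite := hfin.subset sdiff_subset
    have : (D ∩ V) \ {x} = ⋃ z ∈ (D ∩ V) \ {x}, {z} := (biUnion_of_singleton _).symm
    rw [this]
    apply hf.isClosed_biUnion
    intro z _
    rw [← isOpen_compl_iff]
    have : ({z} : Set X)ᶜ = Iio z ∪ Ioi z := by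
      ext w
      simp only [mem_compl_iff, mem_singleton_iff, mem_union, mem_Iio, mem_Ioi]
      exact ne_iff_lt_or_gt
    rw [this]
    exact (h.ray z).2.union (h.ray z).1
  have hopen : IsOpen (V \ ((D ∩ V) \ {x})) := hV.sdiff hclosed
  have hx1 : x ∈ V \ ((D ∩ V) \ {x}) := ⟨hxV, fun hx => hx.2 rfl⟩
  obtain ⟨W, hW, hWc, hxW, hWs⟩ := h.nhd hopen hx1
  have hWD : ∀ e ∈ D, e ∈ W → e = x := by
    intro e he heW
    by_contra hne
    exact (hWs heW).2 ⟨⟨he, (hWs heW).1⟩, hne⟩
  set A : Set X := if IsOpen (Ici x) then Ici x else univ with hA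
  set B : Set X := if IsOpen (Iic x) then Iic x else univ with hB
  have hAo : IsOpen A := by
    rw [hA]; split_ifs with h1
    · exact h1
    · exact isOpen_univ
  have hBo : IsOpen B := by
    rw [hB]; split_ifs with h1
    · exact h1
    · exact isOpen_univ
  have hxA : x ∈ A := by
    rw [hA]; split_ifs
    · exact le_rfl
    · trivial
  have hxB : x ∈ B := by
    rw [hB]; split_ifs
    · exact le_rfl
    · trivial
  have hnb : W ∩ A ∩ B ∈ 𝓝 x := ((hW.inter hAo).inter hBo).mem_nhds ⟨⟨hxW, hxA⟩, hxB⟩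
  refine Filter.mem_of_superset hnb ?_
  rintro y ⟨⟨hyW, hyA⟩, hyB⟩
  show SS D (min x y) (max x y)
  have hI : Icc (min x y) (max x y) ⊆ W := by
    have : min x y ∈ W := by
      rcases min_choice x y with h | h <;> rw [h] <;> assumption
    have h2 : max x y ∈ W := by
      rcases max_choice x y with h | h <;> rw [h] <;> assumption
    exact hWc.out this h2
  refine ⟨?_, ?_, ?_⟩
  · intro a ha b hb
    rw [hWD a ha.2 (hI ha.1), hWD b hb.2 (hI hb.1)]
  · rintro e he ho ⟨h1, h2⟩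
    have hex := hWD e he (hI ⟨h1.le, h2⟩)
    subst hex
    rw [hA, if_pos ho] at hyA
    have : min e y = e := min_eq_left hyA
    rw [this] at h1
    exact lt_irrefl _ h1
  · rintro e he ho ⟨h1, h2⟩
    have hex := hWD e he (hI ⟨h1, h2.le⟩)
    subst hex
    rw [hB, if_pos ho] at hyB
    have : max e y = e := max_eq_left hyB
    rw [this] at h2
    exact lt_irrefl _ h2

/-- the increasing sets -/
def DD (E : ℕ → Set X) : ℕ → Set X
  | 0 => E 0
  | n + 1 => DD E n ∪ E (n + 1) ∪ mid (DD E n)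

lemma DD_lf (h : GO X) {E : ℕ → Set X} (hE : ∀ n, LF (E n)) : ∀ n, LF (DD E n)
  | 0 => hE 0
  | n + 1 => ((DD_lf h hE n).union (hE (n + 1))).union (mid_lf h (DD_lf h hE n))

lemma DD_succ (E : ℕ → Set X) (n : ℕ) : DD E n ⊆ DD E (n + 1) := fun _ hx => Or.inl (Or.inl hx)

lemma DD_mid (E : ℕ → Set X) (n : ℕ) : mid (DD E n) ⊆ DD E (n + 1) := fun _ hx => Or.inr hx

lemma DD_mono (E : ℕ → Set X) : Monotone (DD E) := monotone_nat_of_le_succ (DD_succ E)

lemma E_sub_DD (E : ℕ → Set X) (n : ℕ) : E n ⊆ DD E n := by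
  cases n with
  | zero => exact fun _ hx => hx
  | succ n => exact fun _ hx => Or.inl (Or.inr hx)

lemma right_side (h : GO X) (E : ℕ → Set X) (hdense : Dense (⋃ n, E n))
    (hL : ∀ x, IsOpen (Set.Iic x) → ∃ n, x ∈ E n) {x : X} {U : Set X} (hU : IsOpen U)
    (hUc : U.OrdConnected) (hx : x ∈ U) :
    ∃ n, ∀ y, x < y → RR (DD E n) x y → y ∈ U := by
  by_cases ho : IsOpen (Iic x)
  · obtain ⟨n, hn⟩ := hL x ho
    refine ⟨n, fun y hy hR => ?_⟩
    exfalso
    unfold RR at hR
    rw [min_eq_left hy.le, max_eq_right hy.le] at hR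
    exact hR.2.2 x (E_sub_DD E n hn) ho ⟨le_rfl, hy⟩
  · have hex : ∃ y0 ∈ U, x < y0 := by
      by_contra hcon
      push Not at hcon
      apply ho
      have : Iic x = Iio x ∪ U := by
        ext w
        simp only [mem_Iic, mem_union, mem_Iio]
        constructor
        · intro hw
          rcases eq_or_lt_of_le hw with h1 | h1
          · right; rw [h1]; exact hx
          · left; exact h1
        · rintro (hw | hw)
          · exact hw.le
          · exact hcon w hw
      rw [this]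
      exact (h.ray x).2.union hU
    obtain ⟨y0, hy0U, hy0⟩ := hex
    have hne : ∀ z, x < z → (Ioo x z).Nonempty := by
      intro z hz
      by_contra hcon
      rw [not_nonempty_iff_eq_empty] at hcon
      apply ho
      have : Iic x = Iio z := by
        ext w
        simp only [mem_Iic, mem_Iio]
        constructor
        · intro hw; exact lt_of_le_of_lt hw hz
        · intro hw
          by_contra hc
          push Not at hc
          have : w ∈ Ioo x z := ⟨hc, hw⟩
          rw [hcon] at this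
          exact this
      rw [this]
      exact (h.ray z).2
    have hop : ∀ z, IsOpen (Ioo x z) := by
      intro z
      have : Ioo x z = Ioi x ∩ Iio z := rfl
      rw [this]
      exact (h.ray x).1.inter (h.ray z).2
    obtain ⟨e1, he1, he1E⟩ := hdense.inter_open_nonempty _ (hop y0) (hne y0 hy0)
    obtain ⟨e2, he2, he2E⟩ := hdense.inter_open_nonempty _ (hop e1) (hne e1 he1.1)
    obtain ⟨n1, hn1⟩ := mem_iUnion.mp he1E
    obtain ⟨n2, hn2⟩ := mem_iUnion.mp he2E
    refine ⟨max n1 n2, fun y hy hR => ?_⟩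
    unfold RR at hR
    rw [min_eq_left hy.le, max_eq_right hy.le] at hR
    have hlt : y < e1 := by
      by_contra hcon
      push Not at hcon
      have := hR.1 ⟨⟨he2.1.le, he2.2.le.trans hcon⟩, DD_mono E (le_max_right n1 n2) (E_sub_DD E n2 hn2)⟩
        ⟨⟨he1.1.le, hcon⟩, DD_mono E (le_max_left n1 n2) (E_sub_DD E n1 hn1)⟩
      exact he2.2.ne this
    exact hUc.out hx hy0U ⟨hy.le, (hlt.trans he1.2).le⟩

lemma left_side (h : GO X) (E : ℕ → Set X) (hdense : Dense (⋃ n, E n))
    (hR : ∀ x, IsOpen (Set.Ici x) → ∃ n, x ∈ E n) {x : X} {U : Set X} (hU : IsOpen U)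
    (hUc : U.OrdConnected) (hx : x ∈ U) :
    ∃ n, ∀ y, y < x → RR (DD E n) x y → y ∈ U := by
  by_cases ho : IsOpen (Ici x)
  · obtain ⟨n, hn⟩ := hR x ho
    refine ⟨n, fun y hy hRR => ?_⟩
    exfalso
    unfold RR at hRR
    rw [min_eq_right hy.le, max_eq_left hy.le] at hRR
    exact hRR.2.1 x (E_sub_DD E n hn) ho ⟨hy, le_rfl⟩
  · have hex : ∃ y0 ∈ U, y0 < x := by
      by_contra hcon
      push Not at hcon
      apply ho
      have : Ici x = Ioi x ∪ U := by
        ext w
        simp only [mem_Ici, mem_union, mem_Ioi]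
        constructor
        · intro hw
          rcases eq_or_lt_of_le hw with h1 | h1
          · right; rw [← h1]; exact hx
          · left; exact h1
        · rintro (hw | hw)
          · exact hw.le
          · exact hcon w hw
      rw [this]
      exact (h.ray x).1.union hU
    obtain ⟨y0, hy0U, hy0⟩ := hex
    have hne : ∀ z, z < x → (Ioo z x).Nonempty := by
      intro z hz
      by_contra hcon
      rw [not_nonempty_iff_eq_empty] at hcon
      apply ho
      have : Ici x = Ioi z := by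
        ext w
        simp only [mem_Ici, mem_Ioi]
        constructor
        · intro hw; exact lt_of_lt_of_le hz hw
        · intro hw
          by_contra hc
          push Not at hc
          have : w ∈ Ioo z x := ⟨hw, hc⟩
          rw [hcon] at this
          exact this
      rw [this]
      exact (h.ray z).1
    have hop : ∀ z, IsOpen (Ioo z x) := by
      intro z
      have : Ioo z x = Ioi z ∩ Iio x := rfl
      rw [this]
      exact (h.ray z).1.inter (h.ray x).2
    obtain ⟨e1, he1, he1E⟩ := hdense.inter_open_nonempty _ (hop y0) (hne y0 hy0)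
    obtain ⟨e2, he2, he2E⟩ := hdense.inter_open_nonempty _ (hop e1) (hne e1 he1.2)
    obtain ⟨n1, hn1⟩ := mem_iUnion.mp he1E
    obtain ⟨n2, hn2⟩ := mem_iUnion.mp he2E
    refine ⟨max n1 n2, fun y hy hRR => ?_⟩
    unfold RR at hRR
    rw [min_eq_right hy.le, max_eq_left hy.le] at hRR
    have hlt : e1 < y := by
      by_contra hcon
      push Not at hcon
      have := hRR.1 ⟨⟨hcon.trans he2.1.le, he2.2.le⟩, DD_mono E (le_max_right n1 n2) (E_sub_DD E n2 hn2)⟩
        ⟨⟨hcon, he1.2.le⟩, DD_mono E (le_max_left n1 n2) (E_sub_DD E n1 hn1)⟩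
      exact he2.1.ne' this
    exact hUc.out hy0U hx ⟨(he1.1.trans hlt).le, hy.le⟩

end Faber

/-- A GO space with a σ-(locally finite) dense set containing all one-sided points is metrizable
(Faber). -/
theorem metrizable_of_sigma_discrete (X : Type) [LinearOrder X] [TopologicalSpace X] (h : GO X)
    (E : ℕ → Set X)
    (hlf : ∀ n x, ∃ V, IsOpen V ∧ x ∈ V ∧ (E n ∩ V).Finite)
    (hdense : Dense (⋃ n, E n))
    (hR : ∀ x, IsOpen (Set.Ici x) → ∃ n, x ∈ E n)
    (hL : ∀ x, IsOpen (Set.Iic x) → ∃ n, x ∈ E n) :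
    TopologicalSpace.MetrizableSpace X := by
  classical
  have hE : ∀ n, LF (E n) := fun n => hlf n
  set U : ℕ → Set (X × X) := fun n => {p | RR (DD E n) p.1 p.2} with hU
  have hUanti : Antitone U := by
    intro n m hnm p hp
    exact RR.mono (DD_mono E hnm) hp
  set F : Filter (X × X) := ⨅ n, Filter.principal (U n) with hF
  have hbasis : F.HasBasis (fun _ : ℕ => True) U := by
    apply Filter.hasBasis_iInf_principal
    exact directed_of_isDirected_le (fun _ _ hij => hUanti hij)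
  have hnhds : ∀ x : X, 𝓝 x = Filter.comap (Prod.mk x) F := by
    intro x
    have hb := hbasis.comap (Prod.mk x)
    ext s
    rw [hb.mem_iff]
    constructor
    · intro hs
      obtain ⟨V, hVs, hV, hxV⟩ := mem_nhds_iff.mp hs
      obtain ⟨W, hW, hWc, hxW, hWV⟩ := h.nhd hV hxV
      obtain ⟨n1, hn1⟩ := right_side h E hdense hL hW hWc hxW
      obtain ⟨n2, hn2⟩ := left_side h E hdense hR hW hWc hxW
      refine ⟨max n1 n2, trivial, ?_⟩
      intro y hy
      apply hVs
      apply hWV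
      have hy' : RR (DD E (max n1 n2)) x y := hy
      rcases lt_trichotomy x y with h1 | h1 | h1
      · exact hn1 y h1 (hy'.mono (DD_mono E (le_max_left n1 n2)))
      · rw [← h1]; exact hxW
      · exact hn2 y h1 (hy'.mono (DD_mono E (le_max_right n1 n2)))
    · rintro ⟨n, _, hn⟩
      refine Filter.mem_of_superset (RR_nhd h (DD_lf h hE n) x) ?_
      intro y hy
      exact hn hy
  let u : UniformSpace X :=
    { uniformity := F
      symm := by
        rw [hbasis.tendsto_iff hbasis]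
        intro n _
        exact ⟨n, trivial, fun p hp => RR.symm hp⟩
      comp := by
        refine ((hbasis.lift' (monotone_id.relComp monotone_id)).le_basis_iff hbasis).2 ?_
        intro n _
        refine ⟨n + 1, trivial, ?_⟩
        rintro ⟨x, z⟩ ⟨y, h1, h2⟩
        exact RR.trans (DD_succ E n) (DD_mid E n) h1 h2
      nhds_eq_comap_uniformity := hnhds }
  have hc : (@uniformity X u).IsCountablyGenerated := by
    show F.IsCountablyGenerated
    rw [hF]
    infer_instance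
  have hT1 : T1Space X := by
    refine ⟨fun z => ?_⟩
    rw [← isOpen_compl_iff]
    have : ({z} : Set X)ᶜ = Iio z ∪ Ioi z := by
      ext w
      simp only [mem_compl_iff, mem_singleton_iff, mem_union, mem_Iio, mem_Ioi]
      exact ne_iff_lt_or_gt
    rw [this]
    exact (h.ray z).2.union (h.ray z).1
  exact @UniformSpace.metrizableSpace X u hc inferInstance

end Pool.Agent.Helper648.HS
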