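import Pool.Agent.Helper648.HS.Global
import Pool.Agent.Helper648.HS.Faber
set_option autoImplicit false
namespace Pool.Agent.Helper648.HS
open Set Topology

section
variable {X : Type} [LinearOrder X] [TopologicalSpace X]

/-- Every GO space which is hereditarily Σ is metrizable. -/
theorem metrizable_of_hereditarily_sigma (h : GO X) (hS : ∀ Y : Set X, ∃ F K, Sig Y F K) :
    TopologicalSpace.MetrizableSpace X := by
  classical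
  obtain ⟨ι, hι, N, hlf, hnet⟩ := exists_sigma_network h hS
  obtain ⟨f, hf⟩ := hι.exists_injective_nat
  let G : ι → Set X := fun j => {p | ∃ s ∈ N j, ∃ hs : s.Nonempty, p = hs.some} ∪
    {p | ∃ s ∈ N j, IsLeast s p} ∪ {p | ∃ s ∈ N j, IsGreatest s p}
  have hG : ∀ j x, ∃ V, IsOpen V ∧ x ∈ V ∧ (G j ∩ V).Finite := by
    intro j x
    obtain ⟨V, hV, hxV, hfin⟩ := hlf j x
    refine ⟨V, hV, hxV, ?_⟩
    refine (hfin.biUnion (t := fun s => {p | ∃ hs : s.Nonempty, p = hs.some} ∪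
      {p | IsLeast s p} ∪ {p | IsGreatest s p}) ?_).subset ?_
    · intro s _
      refine Finite.union (Finite.union ?_ ?_) ?_
      · refine Set.Subsingleton.finite ?_
        rintro a ⟨_, rfl⟩ b ⟨_, rfl⟩
        rfl
      · exact Set.Subsingleton.finite (fun a ha b hb => ha.unique hb)
      · exact Set.Subsingleton.finite (fun a ha b hb => ha.unique hb)
    · rintro p ⟨(⟨s, hs, hne, rfl⟩ | ⟨s, hs, hp⟩) | ⟨s, hs, hp⟩, hpV⟩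
      · exact mem_biUnion (x := s) ⟨hs, _, hne.some_mem, hpV⟩ (Or.inl (Or.inl ⟨hne, rfl⟩))
      · exact mem_biUnion (x := s) ⟨hs, _, hp.1, hpV⟩ (Or.inl (Or.inr hp))
      · exact mem_biUnion (x := s) ⟨hs, _, hp.1, hpV⟩ (Or.inr hp)
  let E : ℕ → Set X := fun n => {p | ∃ j, f j = n ∧ p ∈ G j}
  have hEf : ∀ j, E (f j) = G j := by
    intro j
    ext p
    constructor
    · rintro ⟨i, hi, hp⟩
      rwa [← hf hi]
    · intro hp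
      exact ⟨j, rfl, hp⟩
  refine metrizable_of_sigma_discrete X h E ?_ ?_ ?_ ?_
  · intro n x
    by_cases hn : ∃ j, f j = n
    · obtain ⟨j, rfl⟩ := hn
      rw [hEf]
      exact hG j x
    · refine ⟨univ, isOpen_univ, mem_univ _, finite_empty.subset ?_⟩
      rintro p ⟨⟨j, hj, -⟩, -⟩
      exact absurd ⟨j, hj⟩ hn
  · rw [dense_iff_inter_open]
    rintro U hU ⟨x, hx⟩
    obtain ⟨j, s, hs, hxs, hsU⟩ := hnet x U hU hx
    have hne : s.Nonempty := ⟨x, hxs⟩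
    exact ⟨hne.some, hsU hne.some_mem, mem_iUnion.mpr ⟨f j, j, rfl, Or.inl (Or.inl ⟨s, hs, hne, rfl⟩)⟩⟩
  · intro x hx
    obtain ⟨j, s, hs, hxs, hsU⟩ := hnet x _ hx (self_mem_Ici)
    exact ⟨f j, j, rfl, Or.inl (Or.inr ⟨s, hs, hxs, fun y hy => hsU hy⟩)⟩
  · intro x hx
    obtain ⟨j, s, hs, hxs, hsU⟩ := hnet x _ hx (self_mem_Iic)
    exact ⟨f j, j, rfl, Or.inr ⟨s, hs, hxs, fun y hy => hsU hy⟩⟩

omit [LinearOrder X] in
/-- conversion of the subtype form of the Σ property -/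
theorem Sig.of_subtype {Y : Set X} (F : ℕ → Set (Set ↥Y)) (K : Set (Set ↥Y))
    (h1 : ∀ n, LocallyFinite (fun s : F n => (s : Set ↥Y)))
    (h3 : ∀ y : ↥Y, ∃ k ∈ K, y ∈ k)
    (h4 : ∀ k ∈ K, ∀ u : ℕ → Set ↥Y, (∀ n, IsOpen (u n)) → k ⊆ ⋃ n, u n →
          ∃ t : Finset ℕ, k ⊆ ⋃ n ∈ t, u n)
    (h5 : ∀ k ∈ K, ∀ U : Set ↥Y, IsOpen U → k ⊆ U → ∃ n, ∃ s ∈ F n, k ⊆ s ∧ s ⊆ U) :
    ∃ F' K', Sig Y F' K' := by
  refine ⟨fun n => (fun s => (Subtype.val '' s : Set X)) '' F n,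
    (fun s => (Subtype.val '' s : Set X)) '' K, ?_, ?_, ?_, ?_, ?_, ?_⟩
  · rintro n _ ⟨s, _, rfl⟩ _ ⟨y, _, rfl⟩
    exact y.2
  · intro n y hy
    obtain ⟨t, ht, hfin⟩ := h1 n ⟨y, hy⟩
    obtain ⟨V0, hV0t, hV0, hyV0⟩ := mem_nhds_iff.mp ht
    obtain ⟨V, hV, rfl⟩ := isOpen_induced_iff.mp hV0
    refine ⟨V, hV, hyV0, ?_⟩
    refine (hfin.image (fun s : F n => (Subtype.val '' (s : Set ↥Y) : Set X))).subset ?_
    rintro _ ⟨⟨s, hs, rfl⟩, _, ⟨z, hz, rfl⟩, hzV⟩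
    exact ⟨⟨s, hs⟩, ⟨z, hz, hV0t hzV⟩, rfl⟩
  · rintro _ ⟨s, _, rfl⟩ _ ⟨y, _, rfl⟩
    exact y.2
  · intro y hy
    obtain ⟨k, hk, hyk⟩ := h3 ⟨y, hy⟩
    exact ⟨_, ⟨k, hk, rfl⟩, ⟨y, hy⟩, hyk, rfl⟩
  · rintro _ ⟨k, hk, rfl⟩ u hu hku
    obtain ⟨t, ht⟩ := h4 k hk (fun n => Subtype.val ⁻¹' (u n))
      (fun n => (hu n).preimage continuous_subtype_val) (by
      intro y hy
      obtain ⟨n, hn⟩ := mem_iUnion.mp (hku ⟨y, hy, rfl⟩)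
      exact mem_iUnion.mpr ⟨n, hn⟩)
    refine ⟨t, ?_⟩
    rintro _ ⟨y, hy, rfl⟩
    obtain ⟨n, hn, h6⟩ := mem_iUnion₂.mp (ht hy)
    exact mem_iUnion₂.mpr ⟨n, hn, h6⟩
  · rintro _ ⟨k, hk, rfl⟩ U hU hkU
    obtain ⟨n, s, hs, h6, h7⟩ := h5 k hk (Subtype.val ⁻¹' U)
      (hU.preimage continuous_subtype_val) (fun y hy => hkU ⟨y, hy, rfl⟩)
    refine ⟨n, _, ⟨s, hs, rfl⟩, image_mono h6, ?_⟩
    rintro _ ⟨y, hy, rfl⟩
    exact h7 hy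

end

theorem main :
  ∀ (X : Type) [LinearOrder X] [TopologicalSpace X],
    (∀ a : X, IsOpen (Set.Ioi a) ∧ IsOpen (Set.Iio a)) →
    TopologicalSpace.IsTopologicalBasis {U : Set X | IsOpen U ∧ U.OrdConnected} →
    (∀ Y : Set X, ∃ (F : ℕ → Set (Set ↥Y)) (K : Set (Set ↥Y)),
      (∀ n, LocallyFinite (fun s : F n => (s : Set ↥Y))) ∧
      (∀ n, ∀ s ∈ F n, IsClosed s) ∧
      (∀ y : ↥Y, ∃ k ∈ K, y ∈ k) ∧
      (∀ k ∈ K, IsClosed k ∧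
        ∀ u : ℕ → Set ↥Y, (∀ n, IsOpen (u n)) → k ⊆ ⋃ n, u n →
          ∃ t : Finset ℕ, k ⊆ ⋃ n ∈ t, u n) ∧
      (∀ k ∈ K, ∀ U : Set ↥Y, IsOpen U → k ⊆ U →
          ∃ n, ∃ s ∈ F n, k ⊆ s ∧ s ⊆ U)) →
    TopologicalSpace.MetrizableSpace X := by
  intro X _ _ hray hbas hS
  refine metrizable_of_hereditarily_sigma ⟨hray, hbas⟩ ?_
  intro Y
  obtain ⟨F, K, h1, -, h3, h4, h5⟩ := hS Y
  exact Sig.of_subtype F K h1 h3 (fun k hk => (h4 k hk).2) h5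

end Pool.Agent.Helper648.HS
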