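import Pool.Agent.Helper648.HS.Sep
set_option autoImplicit false
namespace Pool.Agent.Helper648.HS
open Set Topology

section
variable {X : Type} [LinearOrder X] [TopologicalSpace X]

/-- countable network -/
theorem exists_network (h : GO X) (hS : ∀ Y : Set X, ∃ F K, Sig Y F K)
    {F K : Set (Set X)} (hC : CSig univ F K) :
    ∃ N : Set (Set X), N.Countable ∧ ∀ x U, IsOpen U → x ∈ U → ∃ s ∈ N, x ∈ s ∧ s ⊆ U := by
  obtain ⟨D, hDc, hD⟩ := exists_sep h hS hC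
  let D1 : Set X := (((D ∪ {x | ∃ d ∈ D, d ⋖ x}) ∪ {x | ∃ d ∈ D, x ⋖ d}) ∪
    {x | IsLeast univ x}) ∪ {x | IsGreatest univ x}
  have hD1 : D1.Countable := by
    refine (((hDc.union ?_).union ?_).union ?_).union ?_
    · refine Countable.mono ?_ (hDc.biUnion (t := fun d _ => {x | d ⋖ x}) fun d _ => ?_)
      · rintro x ⟨d, hd, hx⟩; exact mem_biUnion hd hx
      · exact Set.Subsingleton.countable (fun a ha b hb => ha.unique_right hb)
    · refine Countable.mono ?_ (hDc.biUnion (t := fun d _ => {x | x ⋖ d}) fun d _ => ?_)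
      · rintro x ⟨d, hd, hx⟩; exact mem_biUnion hd hx
      · exact Set.Subsingleton.countable (fun a ha b hb => ha.unique_left hb)
    · exact Set.Subsingleton.countable (fun a ha b hb => ha.unique hb)
    · exact Set.Subsingleton.countable (fun a ha b hb => ha.unique hb)
  have hleft : ∀ x, x ∉ D1 → ∀ y, y < x → ∃ d ∈ D, y < d ∧ d < x := by
    intro x hx y hyx
    have hxD : x ∉ D := fun hd => hx (Or.inl (Or.inl (Or.inl (Or.inl hd))))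
    by_cases hcov : y ⋖ x
    · obtain ⟨d, hd, hdx⟩ := hD x hxD y hyx.ne
      rw [uIcc_of_ge hyx.le] at hdx
      rcases hdx.1.eq_or_lt with h1 | h1
      · exact absurd (Or.inl (Or.inl (Or.inl (Or.inr ⟨y, h1 ▸ hd, hcov⟩)))) hx
      · rcases hdx.2.eq_or_lt with h2 | h2
        · exact absurd (h2 ▸ hd) hxD
        · exact absurd h2 (hcov.2 h1)
    · rw [not_covBy_iff hyx] at hcov
      obtain ⟨y', h1, h2⟩ := hcov
      obtain ⟨d, hd, hdx⟩ := hD x hxD y' h2.ne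
      rw [uIcc_of_ge h2.le] at hdx
      refine ⟨d, hd, lt_of_lt_of_le h1 hdx.1, lt_of_le_of_ne hdx.2 (fun e => hxD (e ▸ hd))⟩
  have hright : ∀ x, x ∉ D1 → ∀ y, x < y → ∃ d ∈ D, x < d ∧ d < y := by
    intro x hx y hyx
    have hxD : x ∉ D := fun hd => hx (Or.inl (Or.inl (Or.inl (Or.inl hd))))
    by_cases hcov : x ⋖ y
    · obtain ⟨d, hd, hdx⟩ := hD x hxD y hyx.ne'
      rw [uIcc_of_le hyx.le] at hdx
      rcases hdx.2.eq_or_lt with h1 | h1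
      · exact absurd (Or.inl (Or.inl (Or.inr ⟨y, h1 ▸ hd, hcov⟩))) hx
      · rcases hdx.1.eq_or_lt with h2 | h2
        · exact absurd (h2 ▸ hd) hxD
        · exact absurd h1 (hcov.2 h2)
    · rw [not_covBy_iff hyx] at hcov
      obtain ⟨y', h1, h2⟩ := hcov
      obtain ⟨d, hd, hdx⟩ := hD x hxD y' h1.ne'
      rw [uIcc_of_le h1.le] at hdx
      refine ⟨d, hd, lt_of_le_of_ne hdx.1 (fun e => hxD (e ▸ hd)), lt_of_le_of_lt hdx.2 h2⟩
  refine ⟨(fun x => {x}) '' D1 ∪ ⋃ s ∈ F, ⋃ d ∈ D, ⋃ d' ∈ D, {s ∩ Icc d d'}, ?_, ?_⟩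
  · exact (hD1.image _).union (hC.cnt.biUnion fun _ _ => hDc.biUnion fun _ _ =>
      hDc.biUnion fun _ _ => countable_singleton _)
  intro x U hU hxU
  by_cases hx1 : x ∈ D1
  · exact ⟨{x}, Or.inl ⟨x, hx1, rfl⟩, rfl, singleton_subset_iff.mpr hxU⟩
  obtain ⟨y0, hy0⟩ : ∃ y, y < x := by
    by_contra hcon
    push Not at hcon
    exact hx1 (Or.inl (Or.inr ⟨mem_univ _, fun y _ => hcon y⟩))
  obtain ⟨y1, hy1⟩ : ∃ y, x < y := by
    by_contra hcon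
    push Not at hcon
    exact hx1 (Or.inr ⟨mem_univ _, fun y _ => hcon y⟩)
  obtain ⟨dl, hdl, -, hdlx⟩ := hleft x hx1 y0 hy0
  obtain ⟨dr, hdr, hdrx, -⟩ := hright x hx1 y1 hy1
  obtain ⟨k, hk, hxk⟩ := hC.cov x (mem_univ x)
  have hPc : ((D ∩ Iio x) ×ˢ (D ∩ Ioi x)).Countable :=
    (hDc.mono inter_subset_left).prod (hDc.mono inter_subset_left)
  obtain ⟨f, hf⟩ := hPc.exists_eq_range ⟨(dl, dr), ⟨hdl, hdlx⟩, ⟨hdr, hdrx⟩⟩
  have hfm : ∀ n, f n ∈ (D ∩ Iio x) ×ˢ (D ∩ Ioi x) := fun n => hf ▸ mem_range_self n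
  obtain ⟨t, ht⟩ := hC.cc k hk (fun n => (U ∪ Iio (f n).1) ∪ Ioi (f n).2)
    (fun n => (hU.union (h.ray _).2).union (h.ray _).1) (by
      intro y _
      rcases lt_trichotomy y x with h1 | h1 | h1
      · obtain ⟨d, hd, h2, h3⟩ := hleft x hx1 y h1
        have : (d, dr) ∈ range f := hf ▸ ⟨⟨hd, h3⟩, ⟨hdr, hdrx⟩⟩
        obtain ⟨n, hn⟩ := this
        refine mem_iUnion.mpr ⟨n, Or.inl (Or.inr ?_)⟩
        rw [hn]; exact h2
      · exact mem_iUnion.mpr ⟨0, Or.inl (Or.inl (h1 ▸ hxU))⟩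
      · obtain ⟨d, hd, h2, h3⟩ := hright x hx1 y h1
        have : (dl, d) ∈ range f := hf ▸ ⟨⟨hdl, hdlx⟩, ⟨hd, h2⟩⟩
        obtain ⟨n, hn⟩ := this
        refine mem_iUnion.mpr ⟨n, Or.inr ?_⟩
        rw [hn]; exact h3)
  obtain ⟨a, b, ha, hax, hb, hbx, hab⟩ : ∃ a b, a ∈ D ∧ a < x ∧ b ∈ D ∧ x < b ∧
      ∀ n ∈ t, (f n).1 ≤ a ∧ b ≤ (f n).2 := by
    clear ht
    induction t using Finset.induction_on with
    | empty => exact ⟨dl, dr, hdl, hdlx, hdr, hdrx, by simp⟩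
    | insert i t hi ih =>
      obtain ⟨a, b, ha, hax, hb, hbx, hab⟩ := ih
      have hfi := hfm i
      refine ⟨max a (f i).1, min b (f i).2, ?_, max_lt hax hfi.1.2, ?_, lt_min hbx hfi.2.2, ?_⟩
      · rcases max_choice a (f i).1 with e | e
        · rw [e]; exact ha
        · rw [e]; exact hfi.1.1
      · rcases min_choice b (f i).2 with e | e
        · rw [e]; exact hb
        · rw [e]; exact hfi.2.1
      · intro n hn
        rcases Finset.mem_insert.mp hn with rfl | hn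
        · exact ⟨le_max_right _ _, min_le_right _ _⟩
        · exact ⟨(hab n hn).1.trans (le_max_left _ _), (min_le_left _ _).trans (hab n hn).2⟩
  obtain ⟨s, hs, hks, hsU⟩ := hC.net k hk ((U ∪ Iio a) ∪ Ioi b)
    ((hU.union (h.ray _).2).union (h.ray _).1) (by
      intro y hy
      obtain ⟨n, hn, hy2⟩ := mem_iUnion₂.mp (ht hy)
      rcases hy2 with (h1 | h1) | h1
      · exact Or.inl (Or.inl h1)
      · exact Or.inl (Or.inr (lt_of_lt_of_le h1 (hab n hn).1))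
      · exact Or.inr (lt_of_le_of_lt (hab n hn).2 h1))
  refine ⟨s ∩ Icc a b, Or.inr (mem_biUnion hs (mem_biUnion ha (mem_biUnion hb rfl))),
    ⟨hks hxk, hax.le, hbx.le⟩, ?_⟩
  rintro y ⟨hy, hya, hyb⟩
  rcases hsU hy with (h1 | h1) | h1
  · exact h1
  · exact absurd h1 (not_lt.mpr hya)
  · exact absurd h1 (not_lt.mpr hyb)

/-- subspaces of GO spaces -/
theorem GO.sub (h : GO X) (S : Set X) : GO ↥S := by
  constructor
  · intro a
    exact ⟨(h.ray a.1).1.preimage continuous_subtype_val,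
      (h.ray a.1).2.preimage continuous_subtype_val⟩
  · refine TopologicalSpace.isTopologicalBasis_of_isOpen_of_nhds (fun u hu => hu.1) ?_
    intro x U hx hU
    obtain ⟨U', hU', rfl⟩ := isOpen_induced_iff.mp hU
    obtain ⟨V, hV, hVo, hxV, hVU⟩ := h.nhd hU' hx
    refine ⟨Subtype.val ⁻¹' V, ⟨hV.preimage continuous_subtype_val, ⟨?_⟩⟩, hxV,
      preimage_mono hVU⟩
    intro a ha b hb c hc
    exact hVo.out ha hb hc

omit [LinearOrder X] in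
theorem CC.sub {S k : Set X} (hk : CC k) (hkS : k ⊆ S) :
    CC (Subtype.val ⁻¹' k : Set ↥S) := by
  intro u hu hku
  choose u' hu' hu2 using fun n => isOpen_induced_iff.mp (hu n)
  obtain ⟨t, ht⟩ := hk u' hu' (by
    intro x hx
    obtain ⟨n, hn⟩ := mem_iUnion.mp (hku (show (⟨x, hkS hx⟩ : ↥S) ∈ Subtype.val ⁻¹' k from hx))
    rw [← hu2 n] at hn
    exact mem_iUnion.mpr ⟨n, hn⟩)
  refine ⟨t, ?_⟩
  intro x hx
  obtain ⟨n, hn, h1⟩ := mem_iUnion₂.mp (ht hx)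
  refine mem_iUnion₂.mpr ⟨n, hn, ?_⟩
  rw [← hu2 n]; exact h1

omit [LinearOrder X] in
theorem Sig.sub' {S : Set X} (hS : ∀ Y : Set X, ∃ F K, Sig Y F K) (Y : Set ↥S) :
    ∃ F K, Sig Y F K := by
  obtain ⟨F, K, hFK⟩ := hS (Subtype.val '' Y)
  refine ⟨fun n => (fun s => (Subtype.val ⁻¹' s : Set ↥S)) '' F n,
    (fun s => (Subtype.val ⁻¹' s : Set ↥S)) '' K, ?_, ?_, ?_, ?_, ?_, ?_⟩
  · rintro n _ ⟨s, hs, rfl⟩ x hx
    obtain ⟨y, hy, hyx⟩ := hFK.sub n s hs hx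
    rwa [← Subtype.ext hyx]
  · intro n y hy
    obtain ⟨V, hV, hyV, hfin⟩ := hFK.lf n y.1 ⟨y, hy, rfl⟩
    refine ⟨Subtype.val ⁻¹' V, hV.preimage continuous_subtype_val, hyV, ?_⟩
    refine (hfin.image (fun s => (Subtype.val ⁻¹' s : Set ↥S))).subset ?_
    rintro _ ⟨⟨s, hs, rfl⟩, z, hz, hzV⟩
    exact ⟨s, ⟨hs, z.1, hz, hzV⟩, rfl⟩
  · rintro _ ⟨k, hk, rfl⟩ x hx
    obtain ⟨y, hy, hyx⟩ := hFK.ksub k hk hx
    rwa [← Subtype.ext hyx]
  · intro y hy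
    obtain ⟨k, hk, hyk⟩ := hFK.cov y.1 ⟨y, hy, rfl⟩
    exact ⟨_, ⟨k, hk, rfl⟩, hyk⟩
  · rintro _ ⟨k, hk, rfl⟩
    exact (hFK.cc k hk).sub ((hFK.ksub k hk).trans (by
      rintro _ ⟨y, _, rfl⟩; exact y.2))
  · rintro _ ⟨k, hk, rfl⟩ U hU hkU
    obtain ⟨U', hU', rfl⟩ := isOpen_induced_iff.mp hU
    obtain ⟨n, s, hs, h1, h2⟩ := hFK.net k hk U' hU' (by
      intro x hx
      obtain ⟨y, hy, rfl⟩ := hFK.ksub k hk hx
      exact hkU (show y ∈ Subtype.val ⁻¹' k from hx))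
    exact ⟨n, _, ⟨s, hs, rfl⟩, preimage_mono h1, preimage_mono h2⟩

omit [LinearOrder X] in
theorem CSig.sub' {S : Set X} {F K : Set (Set X)} (hC : CSig S F K) :
    ∃ F' K', CSig (univ : Set ↥S) F' K' := by
  refine ⟨(fun s => (Subtype.val ⁻¹' s : Set ↥S)) '' F,
    (fun s => (Subtype.val ⁻¹' s : Set ↥S)) '' K, hC.cnt.image _, fun _ _ => subset_univ _,
    ?_, ?_, ?_⟩
  · intro y _
    obtain ⟨k, hk, hyk⟩ := hC.cov y.1 y.2
    exact ⟨_, ⟨k, hk, rfl⟩, hyk⟩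
  · rintro _ ⟨k, hk, rfl⟩
    exact (hC.cc k hk).sub (hC.ksub k hk)
  · rintro _ ⟨k, hk, rfl⟩ U hU hkU
    obtain ⟨U', hU', rfl⟩ := isOpen_induced_iff.mp hU
    obtain ⟨s, hs, h1, h2⟩ := hC.net k hk U' hU' (by
      intro x hx
      exact hkU (show (⟨x, hC.ksub k hk hx⟩ : ↥S) ∈ Subtype.val ⁻¹' k from hx))
    exact ⟨_, ⟨s, hs, rfl⟩, preimage_mono h1, preimage_mono h2⟩

/-- countable network for subsets with a countable Σ-structure -/
theorem exists_network_sub (h : GO X) (hS : ∀ Y : Set X, ∃ F K, Sig Y F K)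
    {S : Set X} {F K : Set (Set X)} (hC : CSig S F K) :
    ∃ N : ℕ → Set X, (∀ n, N n ⊆ S) ∧
      ∀ x ∈ S, ∀ U, IsOpen U → x ∈ U → ∃ n, x ∈ N n ∧ N n ⊆ U := by
  obtain ⟨F', K', hC'⟩ := hC.sub'
  obtain ⟨N, hNc, hN⟩ := exists_network (h.sub S) (Sig.sub' hS) hC'
  obtain ⟨f, hf⟩ := (hNc.insert ∅).exists_eq_range ⟨∅, mem_insert _ _⟩
  refine ⟨fun n => Subtype.val '' f n, fun n => by rintro _ ⟨y, _, rfl⟩; exact y.2, ?_⟩
  intro x hx U hU hxU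
  obtain ⟨s, hs, h1, h2⟩ := hN ⟨x, hx⟩ (Subtype.val ⁻¹' U)
    (hU.preimage continuous_subtype_val) hxU
  obtain ⟨n, rfl⟩ : s ∈ range f := hf ▸ mem_insert_of_mem _ hs
  exact ⟨n, ⟨⟨x, hx⟩, h1, rfl⟩, by rintro _ ⟨y, hy, rfl⟩; exact h2 hy⟩

end
end Pool.Agent.Helper648.HS
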