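import Pool.Agent.Helper648.HS.Part
import Pool.Agent.Helper648.HS.Net
set_option autoImplicit false
namespace Pool.Agent.Helper648.HS
open Set Topology

theorem countable_of_initial {α X : Type} [LinearOrder X] (A : Set α) (p : α → X)
    (hfin : ∀ a ∈ A, {b ∈ A | p b ≤ p a}.Finite) : A.Countable := by
  have h1 : A ⊆ ⋃ N : ℕ, {a ∈ A | {b ∈ A | p b ≤ p a}.ncard = N} := by
    intro a ha
    exact mem_iUnion.mpr ⟨_, ha, rfl⟩
  refine Countable.mono h1 (countable_iUnion fun N => ?_)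
  rcases (({a ∈ A | {b ∈ A | p b ≤ p a}.ncard = N} : Set α)).eq_empty_or_nonempty with he | ⟨a, ha⟩
  · rw [he]; exact countable_empty
  · refine ((hfin a ha.1).subset ?_).countable
    rintro b ⟨hb, hbN⟩
    refine ⟨hb, ?_⟩
    by_contra hcon
    push Not at hcon
    have hsub : {c ∈ A | p c ≤ p a} ⊆ {c ∈ A | p c ≤ p b} :=
      fun c hc => ⟨hc.1, hc.2.trans hcon.le⟩
    have heq := Set.eq_of_subset_of_ncard_le hsub (by rw [hbN, ha.2]) (hfin b hb)
    have : b ∈ {c ∈ A | p c ≤ p a} := heq ▸ (⟨hb, le_refl _⟩ : b ∈ {c ∈ A | p c ≤ p b})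
    exact absurd this.2 (not_le.mpr hcon)

section
variable {X : Type} [LinearOrder X] [TopologicalSpace X]

/-- the partitions attached to a Σ-structure -/
def Pf (F : ℕ → Set (Set X)) (n : ℕ) (x : X) : Set X :=
  {y | ∀ i ≤ n, {s ∈ F i | (s ∩ uIcc x y).Nonempty}.Finite}

omit [TopologicalSpace X] in
theorem Pf_symm {F : ℕ → Set (Set X)} {n : ℕ} {x y : X} (hy : y ∈ Pf F n x) : x ∈ Pf F n y := by
  intro i hi
  rw [uIcc_comm]; exact hy i hi

omit [TopologicalSpace X] in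
theorem Pf_trans {F : ℕ → Set (Set X)} {n : ℕ} {x y z : X} (hy : y ∈ Pf F n x)
    (hz : z ∈ Pf F n y) : z ∈ Pf F n x := by
  intro i hi
  refine ((hy i hi).union (hz i hi)).subset ?_
  rintro s ⟨hs, w, hw, hwz⟩
  rcases uIcc_sub3 (b := y) hwz with h1 | h1
  · exact Or.inl ⟨hs, w, hw, h1⟩
  · exact Or.inr ⟨hs, w, hw, h1⟩

theorem Pf_part (h : GO X) {F : ℕ → Set (Set X)} {K : Set (Set X)} (hF : Sig univ F K) :
    Part (Pf F) := by
  have hself : ∀ n x, x ∈ Pf F n x := by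
    intro n x i _
    obtain ⟨V, -, hxV, hfin⟩ := hF.lf i x (mem_univ _)
    refine hfin.subset ?_
    rintro s ⟨hs, y, hy, hyx⟩
    rw [uIcc_self, mem_singleton_iff] at hyx
    exact ⟨hs, x, hyx ▸ hy, hxV⟩
  have heq : ∀ n x y, y ∈ Pf F n x → Pf F n y = Pf F n x := by
    intro n x y hy
    ext z
    exact ⟨fun hz => Pf_trans hy hz, fun hz => Pf_trans (Pf_symm hy) hz⟩
  refine ⟨hself, heq, ?_, ?_, ?_⟩
  · intro n x
    rw [isOpen_iff_mem_nhds]
    intro y hy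
    choose V hV hyV hfin using fun i => hF.lf i y (mem_univ _)
    have hopen : IsOpen (⋂ i ∈ Iic n, V i) := (finite_Iic n).isOpen_biInter fun i _ => hV i
    obtain ⟨W, hW, hWo, hyW, hWV⟩ := h.nhd hopen (mem_iInter₂.mpr fun i _ => hyV i)
    refine Filter.mem_of_superset (hW.mem_nhds hyW) ?_
    intro z hz
    rw [← heq n x y hy]
    intro i hi
    refine (hfin i).subset ?_
    rintro s ⟨hs, w, hw, hwz⟩
    exact ⟨hs, w, hw, mem_iInter₂.mp (hWV (hWo.uIcc_subset hyW hz hwz)) i hi⟩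
  · intro n x
    refine ⟨fun y hy y' hy' w hw i hi => ?_⟩
    refine ((hy i hi).union (hy' i hi)).subset ?_
    rintro s ⟨hs, z, hz, hzw⟩
    have : z ∈ uIcc x y ∨ z ∈ uIcc x y' := by
      simp only [mem_uIcc] at hzw ⊢
      obtain ⟨h1, h2⟩ := hw
      rcases hzw with ⟨h3, h4⟩ | ⟨h3, h4⟩
      · right; left; exact ⟨h3, h4.trans h2⟩
      · left; right; exact ⟨h1.trans h3, h4⟩
    rcases this with h1 | h1
    · exact Or.inl ⟨hs, z, hz, h1⟩
    · exact Or.inr ⟨hs, z, hz, h1⟩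
  · intro n x y hy i hi
    exact hy i (by omega)

omit [TopologicalSpace X] in
theorem Pf_countable {F : ℕ → Set (Set X)} (n i : ℕ) (hi : i ≤ n) (x : X) :
    {s ∈ F i | (s ∩ Pf F n x).Nonempty}.Countable := by
  classical
  have : ∀ s : Set X, ∃ p : X, (s ∩ Pf F n x).Nonempty → p ∈ s ∩ Pf F n x := by
    intro s
    by_cases hs : (s ∩ Pf F n x).Nonempty
    · exact ⟨hs.some, fun _ => hs.some_mem⟩
    · exact ⟨x, fun h => absurd h hs⟩
  choose p hp using this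
  have hR : {s ∈ F i | (s ∩ Pf F n x).Nonempty ∧ x ≤ p s}.Countable := by
    refine countable_of_initial _ p ?_
    rintro s0 ⟨hs0, hne0, hx0⟩
    refine ((hp s0 hne0).2 i hi).subset ?_
    rintro s ⟨⟨hs, hne, hx⟩, hle⟩
    refine ⟨hs, p s, (hp s hne).1, ?_⟩
    rw [mem_uIcc]; left; exact ⟨hx, hle⟩
  have hL : {s ∈ F i | (s ∩ Pf F n x).Nonempty ∧ p s ≤ x}.Countable := by
    refine countable_of_initial (X := Xᵒᵈ) _ p ?_
    rintro s0 ⟨hs0, hne0, hx0⟩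
    refine ((hp s0 hne0).2 i hi).subset ?_
    rintro s ⟨⟨hs, hne, hx⟩, hle⟩
    refine ⟨hs, p s, (hp s hne).1, ?_⟩
    rw [mem_uIcc]; right; exact ⟨hle, hx⟩
  refine (hR.union hL).mono ?_
  rintro s ⟨hs, hne⟩
  rcases le_total x (p s) with h1 | h1
  · exact Or.inl ⟨hs, hne, h1⟩
  · exact Or.inr ⟨hs, hne, h1⟩

theorem class_csig (h : GO X) {F : ℕ → Set (Set X)} {K : Set (Set X)} (hF : Sig univ F K)
    (x : X) : ∃ F' K', CSig (Sc (Pf F) x) F' K' := by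
  have hP := Pf_part h hF
  have hcl := hP.Sclosed x
  let F0 : Set (Set X) := {s | ∃ i, s ∈ F i ∧ (s ∩ Sc (Pf F) x).Nonempty}
  have hF0 : F0.Countable := by
    refine (countable_iUnion fun i => Pf_countable (F := F) i i le_rfl x).mono ?_
    rintro s ⟨i, hs, y, hy, hyS⟩
    exact mem_iUnion.mpr ⟨i, hs, y, hy, mem_iInter.mp hyS i⟩
  refine ⟨insert ∅ ((fun s => s ∩ Sc (Pf F) x) '' F0), (fun k => k ∩ Sc (Pf F) x) '' K,
    (hF0.image _).insert _, ?_, ?_, ?_, ?_⟩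
  · rintro _ ⟨k, _, rfl⟩; exact inter_subset_right
  · intro y hy
    obtain ⟨k, hk, hyk⟩ := hF.cov y (mem_univ _)
    exact ⟨_, ⟨k, hk, rfl⟩, hyk, hy⟩
  · rintro _ ⟨k, hk, rfl⟩ u hu hku
    obtain ⟨t, ht⟩ := hF.cc k hk (fun n => u n ∪ (Sc (Pf F) x)ᶜ)
      (fun n => (hu n).union hcl.isOpen_compl) (by
      intro y hy
      by_cases hxH : y ∈ Sc (Pf F) x
      · obtain ⟨n, hn⟩ := mem_iUnion.mp (hku ⟨hy, hxH⟩)
        exact mem_iUnion.mpr ⟨n, Or.inl hn⟩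
      · exact mem_iUnion.mpr ⟨0, Or.inr hxH⟩)
    refine ⟨t, ?_⟩
    rintro y ⟨hy, hyH⟩
    obtain ⟨n, hn, hx2⟩ := mem_iUnion₂.mp (ht hy)
    rcases hx2 with h1 | h1
    · exact mem_iUnion₂.mpr ⟨n, hn, h1⟩
    · exact absurd hyH h1
  · rintro _ ⟨k, hk, rfl⟩ U hU hkU
    rcases (k ∩ Sc (Pf F) x).eq_empty_or_nonempty with he | ⟨y, hy, hyS⟩
    · exact ⟨∅, mem_insert _ _, he.subset, empty_subset _⟩
    · obtain ⟨n, s, hs, h1, h2⟩ := hF.net k hk (U ∪ (Sc (Pf F) x)ᶜ)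
        (hU.union hcl.isOpen_compl) (by
        intro z hz
        by_cases hzS : z ∈ Sc (Pf F) x
        · exact Or.inl (hkU ⟨hz, hzS⟩)
        · exact Or.inr hzS)
      refine ⟨s ∩ Sc (Pf F) x, Or.inr ⟨s, ⟨n, hs, y, h1 hy, hyS⟩, rfl⟩,
        inter_subset_inter_left _ h1, ?_⟩
      rintro z ⟨hz, hzS⟩
      rcases h2 hz with h3 | h3
      · exact h3
      · exact absurd hzS h3

/-- σ-locally finite network -/
theorem exists_sigma_network (h : GO X) (hS : ∀ Y : Set X, ∃ F K, Sig Y F K) :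
    ∃ (ι : Type) (_ : Countable ι) (N : ι → Set (Set X)),
      (∀ j x, ∃ V, IsOpen V ∧ x ∈ V ∧ {s ∈ N j | (s ∩ V).Nonempty}.Finite) ∧
      ∀ x U, IsOpen U → x ∈ U → ∃ j, ∃ s ∈ N j, x ∈ s ∧ s ⊆ U := by
  obtain ⟨F, K, hF⟩ := hS univ
  have hP := Pf_part h hF
  set P := Pf F with hPdef
  have hNN : ∀ x, ∃ N : ℕ → Set X, (∀ n, N n ⊆ Sc P x) ∧
      ∀ y ∈ Sc P x, ∀ U, IsOpen U → y ∈ U → ∃ n, y ∈ N n ∧ N n ⊆ U := by
    intro x
    obtain ⟨F', K', hC⟩ := class_csig h hF x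
    exact exists_network_sub h hS hC
  choose NN hNNs hNNn using hNN
  obtain ⟨A, hAr, hA1, hA2⟩ := left_part h hS hP
  obtain ⟨bb, B, hbS, hB1, hB2⟩ := right_part h hS hP
  let nondeg : X → Prop := fun x => ∃ u ∈ Sc P x, ∃ v ∈ Sc P x, u < v
  let M : ℕ → ℕ → ℕ → ℕ → Set X := fun n m n' m' =>
    {p | aa hP p = p ∧ p ∈ A n m ∧ bb p ∈ B n' m'}
  -- local finiteness of the families of classes
  have hM : ∀ n m n' m' x, ∃ V, IsOpen V ∧ x ∈ V ∧
      {p ∈ M n m n' m' | (Sc P p ∩ V).Nonempty}.Finite := by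
    intro n m n' m' x
    obtain ⟨V1, hV1, hxV1, hf1⟩ := hA2 n m x
    obtain ⟨V2, hV2, hxV2, hf2⟩ := hB2 n' m' x
    obtain ⟨V, hV, hVo, hxV, hVV⟩ := h.nhd (hV1.inter hV2) ⟨hxV1, hxV2⟩
    refine ⟨V, hV, hxV, ?_⟩
    let EL : Set X := {p | aa hP p = p ∧ Sc P p ≠ Sc P x ∧ p < x ∧ p ∉ V ∧ (Sc P p ∩ V).Nonempty}
    let ER : Set X := {p | aa hP p = p ∧ Sc P p ≠ Sc P x ∧ x < p ∧ bb p ∉ V ∧
      (Sc P p ∩ V).Nonempty}
    have hEL : EL.Subsingleton := by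
      have key : ∀ p ∈ EL, ∀ q ∈ EL, ¬ p < q := by
        rintro p ⟨hp1, hp2, hp3, hp4, y, hy, hyV⟩ q ⟨hq1, hq2, hq3, hq4, z, hz, hzV⟩ hpq
        by_cases hpqS : Sc P p = Sc P q
        · have := aa_congr hP hpqS
          rw [hp1, hq1] at this
          exact hpq.ne this
        · have h1 : y < q := hP.Slt hpqS hpq hy (hP.Sself q)
          exact hq4 (hVo.out hyV hxV ⟨h1.le, hq3.le⟩)
      intro p hp q hq
      exact le_antisymm (not_lt.mp (key q hq p hp)) (not_lt.mp (key p hp q hq))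
    have hER : ER.Subsingleton := by
      have key : ∀ p ∈ ER, ∀ q ∈ ER, ¬ p < q := by
        rintro p ⟨hp1, hp2, hp3, hp4, y, hy, hyV⟩ q ⟨hq1, hq2, hq3, hq4, z, hz, hzV⟩ hpq
        by_cases hpqS : Sc P p = Sc P q
        · have := aa_congr hP hpqS
          rw [hp1, hq1] at this
          exact hpq.ne this
        · have h1 : bb p < z := hP.Slt hpqS hpq (hbS p) hz
          have h2 : x < bb p := hP.Slt (Ne.symm hp2) hp3 (hP.Sself x) (hbS p)
          exact hp4 (hVo.out hxV hzV ⟨h2.le, h1.le⟩)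
      intro p hp q hq
      exact le_antisymm (not_lt.mp (key q hq p hp)) (not_lt.mp (key p hp q hq))
    refine ((((((finite_singleton (aa hP x)).union hf1).union
      (hf2.image (aa hP))).union hEL.finite).union hER.finite)).subset ?_
    rintro p ⟨⟨hp1, hp2, hp3⟩, hpV⟩
    by_cases hpx : Sc P p = Sc P x
    · left; left; left; left
      rw [mem_singleton_iff, ← hp1]
      exact aa_congr hP hpx
    · have hne : p ≠ x := fun e => hpx (e ▸ rfl)
      rcases lt_or_gt_of_ne hne with h1 | h1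
      · by_cases hpV' : p ∈ V
        · left; left; left; right
          exact ⟨hp2, (hVV hpV').1, h1.le⟩
        · left; right
          exact ⟨hp1, hpx, h1, hpV', hpV⟩
      · by_cases hpV' : bb p ∈ V
        · left; left; right
          refine ⟨bb p, ⟨hp3, (hVV hpV').2, ?_⟩, ?_⟩
          · exact (hP.Slt (Ne.symm hpx) h1 (hP.Sself x) (hbS p)).le
          · have h2 : Sc P (bb p) = Sc P p := hP.Seq (hbS p)
            rw [aa_congr hP h2, hp1]
        · right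
          exact ⟨hp1, hpx, h1, hpV', hpV⟩
  refine ⟨(ℕ × ℕ) ⊕ (ℕ × ℕ × ℕ × ℕ × ℕ), inferInstance, fun j => match j with
    | Sum.inl (n, m) => {t | ∃ s ∈ F n, ∃ x, t = s ∩ P m x}
    | Sum.inr (n, m, n', m', i) => {t | ∃ p ∈ M n m n' m', t = NN p i}, ?_, ?_⟩
  · rintro (⟨n, m⟩ | ⟨n, m, n', m', i⟩) x
    · obtain ⟨V, hV, hxV, hfin⟩ := hF.lf n x (mem_univ _)
      refine ⟨V ∩ P m x, hV.inter (hP.opn m x), ⟨hxV, hP.self m x⟩, ?_⟩
      refine (hfin.image (fun s => s ∩ P m x)).subset ?_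
      rintro t ⟨⟨s, hs, x', rfl⟩, y, ⟨hys, hyx'⟩, hyV, hyx⟩
      refine ⟨s, ⟨hs, y, hys, hyV⟩, ?_⟩
      show s ∩ P m x = s ∩ P m x'
      rw [← hP.eq m x y hyx, hP.eq m x' y hyx']
    · obtain ⟨V, hV, hxV, hfin⟩ := hM n m n' m' x
      refine ⟨V, hV, hxV, ?_⟩
      refine (hfin.image (fun p => NN p i)).subset ?_
      rintro t ⟨⟨p, hp, rfl⟩, y, hy, hyV⟩
      exact ⟨p, ⟨hp, y, hNNs p i hy, hyV⟩, rfl⟩
  · intro x U hU hxU
    by_cases hnd : ∃ u ∈ Sc P x, ∃ v ∈ Sc P x, u < v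
    · have hpS : Sc P (aa hP x) = Sc P x := hP.Seq (aa_mem hP x)
      have hpp : aa hP (aa hP x) = aa hP x := aa_congr hP hpS
      obtain ⟨n, m, h1⟩ := hA1 (aa hP x) (hpS.symm ▸ hnd)
      obtain ⟨n', m', h2⟩ := hB1 (aa hP x) (hpS.symm ▸ hnd)
      obtain ⟨i, hi1, hi2⟩ := hNNn (aa hP x) x (hpS.symm ▸ hP.Sself x) U hU hxU
      refine ⟨Sum.inr (n, m, n', m', i), NN (aa hP x) i, ⟨aa hP x, ⟨hpp, ?_, h2⟩, rfl⟩, hi1, hi2⟩
      rw [hpp] at h1; exact h1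
    · have hsing : ∀ y ∈ Sc P x, y = x := by
        intro y hy
        by_contra hne
        rcases lt_or_gt_of_ne hne with h1 | h1
        · exact hnd ⟨y, hy, x, hP.Sself x, h1⟩
        · exact hnd ⟨x, hP.Sself x, y, hy, h1⟩
      obtain ⟨k, hk, hxk⟩ := hF.cov x (mem_univ _)
      obtain ⟨m, hm⟩ := (hF.cc k hk).mono_cover (fun m => U ∪ (P m x)ᶜ)
        (fun m => hU.union (hP.clopen m x).isOpen_compl)
        (fun m m' hmm => union_subset_union_right _ (compl_subset_compl.mpr (hP.mono x hmm))) (by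
          intro y _
          by_cases hyS : y ∈ Sc P x
          · exact mem_iUnion.mpr ⟨0, Or.inl (by rw [hsing y hyS]; exact hxU)⟩
          · simp only [Sc, mem_iInter] at hyS
            push Not at hyS
            obtain ⟨m, hm⟩ := hyS
            exact mem_iUnion.mpr ⟨m, Or.inr hm⟩)
      obtain ⟨n, s, hs, h1, h2⟩ := hF.net k hk _ (hU.union (hP.clopen m x).isOpen_compl) hm
      refine ⟨Sum.inl (n, m), s ∩ P m x, ⟨s, hs, x, rfl⟩, ⟨h1 hxk, hP.self m x⟩, ?_⟩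
      rintro y ⟨hy, hyP⟩
      rcases h2 hy with h3 | h3
      · exact h3
      · exact absurd hyP h3

end
end Pool.Agent.Helper648.HS
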