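import Pool.Agent.Helper648.HS.Defs
set_option autoImplicit false
/-! The lemma `no_cc`, proved by helper872 (job 101). -/
namespace Pool.Agent.Helper648.HS
open Set Topology

section
variable {X : Type} [LinearOrder X]

/-- countable sets bounded by elements of `A` have a strict upper bound in `A` -/
theorem om_bdd {A : Set X} (hA : Om A) {B : Set X} (hB : B.Countable)
    (hBA : ∀ x ∈ B, ∃ a ∈ A, x ≤ a) : ∃ a ∈ A, ∀ x ∈ B, x < a := by
  by_contra hcon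
  push Not at hcon
  apply hA.unc
  have h1 : ∀ x ∈ B, (A ∩ Set.Iic x).Countable := by
    intro x hx
    obtain ⟨a, ha, hxa⟩ := hBA x hx
    have h2 : ((A ∩ Set.Iio a) ∪ {a}).Countable := (hA.seg a ha).union (Set.countable_singleton a)
    refine h2.mono ?_
    rintro y ⟨hy, hyx⟩
    rcases lt_or_eq_of_le (le_trans hyx hxa) with h | h
    · exact Or.inl ⟨hy, h⟩
    · exact Or.inr h
  have h3 : (⋃ x ∈ B, (A ∩ Set.Iic x)).Countable := hB.biUnion h1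
  refine h3.mono ?_
  intro a ha
  obtain ⟨x, hx, hax⟩ := hcon a ha
  exact Set.mem_biUnion hx ⟨ha, hax⟩

theorem om_bdd_seq {A : Set X} (hA : Om A) (f : ℕ → X)
    (hf : ∀ n, ∃ a ∈ A, f n ≤ a) : ∃ a ∈ A, ∀ n, f n < a := by
  obtain ⟨a, ha, h⟩ := om_bdd hA (Set.countable_range f) (by
    rintro x ⟨n, rfl⟩
    exact hf n)
  exact ⟨a, ha, fun n => h _ ⟨n, rfl⟩⟩

theorem om_nomax {A : Set X} (hA : Om A) {a : X} (ha : a ∈ A) : ∃ b ∈ A, a < b := by
  obtain ⟨b, hb, h⟩ := om_bdd_seq hA (fun _ => a) (fun _ => ⟨a, ha, le_rfl⟩)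
  exact ⟨b, hb, h 0⟩

theorem om_nonempty {A : Set X} (hA : Om A) : A.Nonempty := by
  by_contra h
  rw [Set.not_nonempty_iff_eq_empty] at h
  exact hA.unc (h ▸ Set.countable_empty)

/-- order limit -/
def OLim (e : ℕ → X) (x : X) : Prop := (∀ i, e i < x) ∧ ∀ y < x, ∃ i, y < e i

theorem olim_unique {e : ℕ → X} {x y : X} (hx : OLim e x) (hy : OLim e y) : x = y := by
  rcases lt_trichotomy x y with h | h | h
  · obtain ⟨i, hi⟩ := hy.2 x h
    exact absurd (hx.1 i) (not_lt.2 hi.le)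
  · exact h
  · obtain ⟨i, hi⟩ := hx.2 y h
    exact absurd (hy.1 i) (not_lt.2 hi.le)

variable [TopologicalSpace X]

/-- strictly increasing sequences in a countably compact set have limits there -/
theorem cc_lim (h : GO X) {A : Set X} (hA : Om A) {k : Set X} (hk : CC k) {e : ℕ → X}
    (he : StrictMono e) (hek : ∀ i, e i ∈ k) (hb : ∀ i, ∃ a ∈ A, e i ≤ a) :
    ∃ x ∈ k, OLim e x ∧ (∀ W, IsOpen W → x ∈ W → ∃ i, e i ∈ W) ∧ ∃ b ∈ A, x < b := by
  have hx : ∃ x ∈ k, ∀ N, ∀ W, IsOpen W → x ∈ W → ∃ i, N ≤ i ∧ e i ∈ W := by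
    by_contra hcon
    push Not at hcon
    obtain ⟨t, ht⟩ := hk (fun N => ⋃₀ {W | IsOpen W ∧ ∀ i, N ≤ i → e i ∉ W})
      (fun N => isOpen_sUnion fun W hW => hW.1) (by
        intro x hx
        obtain ⟨N, W, hW, hxW, hi⟩ := hcon x hx
        exact Set.mem_iUnion.2 ⟨N, ⟨W, ⟨hW, hi⟩, hxW⟩⟩)
    obtain ⟨M, hM⟩ : ∃ M, ∀ n ∈ t, n ≤ M := ⟨t.sup id, fun n hn => Finset.le_sup (f := id) hn⟩
    have h1 := ht (hek M)
    simp only [Set.mem_iUnion] at h1
    obtain ⟨n, hn, W, ⟨_, hW⟩, heW⟩ := h1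
    exact hW M (hM n hn) heW
  obtain ⟨x, hxk, hx⟩ := hx
  obtain ⟨b, hbA, hbe⟩ := om_bdd_seq hA e hb
  have h1 : ∀ i, e i < x := by
    intro i
    by_contra hcon
    push Not at hcon
    obtain ⟨j, hj, hj2⟩ := hx (i + 1) (Set.Iio (e (i + 1))) (h.ray _).2
      (lt_of_le_of_lt hcon (he (Nat.lt_succ_self i)))
    exact absurd (he.monotone hj) (not_le.2 hj2)
  have h2 : x ≤ b := by
    by_contra hcon
    push Not at hcon
    obtain ⟨j, _, hj2⟩ := hx 0 (Set.Ioi b) (h.ray _).1 hcon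
    exact absurd (hbe j) (not_lt.2 (le_of_lt hj2))
  obtain ⟨b', hb', hbb⟩ := om_nomax hA hbA
  refine ⟨x, hxk, ⟨h1, fun y hy => ?_⟩, fun W hW hxW => ?_, b', hb', lt_of_le_of_lt h2 hbb⟩
  · obtain ⟨j, _, hj2⟩ := hx 0 (Set.Ioi y) (h.ray _).1 hy
    exact ⟨j, hj2⟩
  · obtain ⟨j, _, hj2⟩ := hx 0 W hW hxW
    exact ⟨j, hj2⟩

/-- the part of `k` bounded by elements of `A` -/
def EE (A k : Set X) : Set X := {z | z ∈ k ∧ ∃ b ∈ A, z < b}

structure Club (A E Z : Set X) : Prop where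
  sub : Z ⊆ E
  unb : ∀ a ∈ A, ∃ z ∈ Z, a < z
  closed : ∀ e : ℕ → X, StrictMono e → (∀ i, e i ∈ Z) → ∀ x ∈ E, OLim e x → x ∈ Z

theorem club_inter (h : GO X) {A : Set X} (hA : Om A) {k : Set X} (hk : CC k) {Z : ℕ → Set X}
    (hZ : ∀ n, Club A (EE A k) (Z n)) {a : X} (ha : a ∈ A) :
    ∃ z, a < z ∧ z ∈ EE A k ∧ ∀ n, z ∈ Z n := by
  have hstep : ∀ (p : EE A k × ℕ), ∃ z : EE A k, z.1 ∈ Z p.2 ∧ p.1.1 < z.1 := by
    rintro ⟨⟨x, hx⟩, m⟩
    obtain ⟨b, hb, hxb⟩ := hx.2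
    obtain ⟨z, hz, hbz⟩ := (hZ m).unb b hb
    exact ⟨⟨z, (hZ m).sub hz⟩, hz, hxb.trans hbz⟩
  choose f hf1 hf2 using hstep
  obtain ⟨z0, hz0, haz⟩ := (hZ 0).unb a ha
  let e : ℕ → EE A k := fun i => Nat.rec ⟨z0, (hZ 0).sub hz0⟩
    (fun i x => f (x, (Nat.unpair (i + 1)).1)) i
  have he0 : (e 0).1 = z0 := rfl
  have hes : ∀ i, e (i + 1) = f (e i, (Nat.unpair (i + 1)).1) := fun i => rfl
  have hmono : StrictMono fun i => (e i).1 := by
    apply strictMono_nat_of_lt_succ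
    intro i
    rw [hes]
    exact hf2 (e i, (Nat.unpair (i + 1)).1)
  have hmem : ∀ i, (e i).1 ∈ Z (Nat.unpair i).1 := by
    intro i
    cases i with
    | zero =>
      show z0 ∈ Z (Nat.unpair 0).1
      rw [Nat.unpair_zero]
      exact hz0
    | succ i =>
      rw [hes]
      exact hf1 (e i, (Nat.unpair (i + 1)).1)
  obtain ⟨x, hxk, hlim, _, hxb⟩ := cc_lim h hA hk hmono (fun i => (e i).2.1)
    (fun i => by obtain ⟨b, hb, hlt⟩ := (e i).2.2; exact ⟨b, hb, hlt.le⟩)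
  refine ⟨x, ?_, ⟨hxk, hxb⟩, fun n => ?_⟩
  · exact haz.trans (hlim.1 0)
  · refine (hZ n).closed (fun j => (e (Nat.pair n j)).1) ?_ ?_ x ⟨hxk, hxb⟩ ⟨?_, ?_⟩
    · exact fun i j hij => hmono (Nat.pair_lt_pair_right n hij)
    · intro j
      have := hmem (Nat.pair n j)
      rwa [Nat.unpair_pair] at this
    · exact fun i => hlim.1 _
    · intro y hy
      obtain ⟨i, hi⟩ := hlim.2 y hy
      exact ⟨i, lt_of_lt_of_le hi (hmono.monotone (Nat.right_le_pair n i))⟩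


theorem club_dichotomy (h : GO X) {A : Set X} (hA : Om A) {k : Set X} (hk : CC k)
    (hunb : ∀ a ∈ A, ∃ z ∈ k, a < z ∧ ∃ b ∈ A, z < b) {T : Set X} (hT : T ⊆ EE A k)
    {F : ℕ → Set (Set X)} {K : Set (Set X)} (hF : Sig T F K) :
    (∃ Z, Club A (EE A k) Z ∧ Z ⊆ T) ∨ (∃ Z, Club A (EE A k) Z ∧ ∀ z ∈ Z, z ∉ T) := by
  by_cases hcase : ∃ k' ∈ K, ∀ a ∈ A, ∃ z ∈ k', a < z
  · obtain ⟨k', hk', hu⟩ := hcase
    refine Or.inl ⟨k', ⟨(hF.ksub k' hk').trans hT, hu, ?_⟩, hF.ksub k' hk'⟩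
    intro e he hek x _ hx
    obtain ⟨x', hx', hlim, _⟩ := cc_lim h hA (hF.cc k' hk') he hek (fun i => by
      obtain ⟨b, hb, hlt⟩ := (hT (hF.ksub k' hk' (hek i))).2
      exact ⟨b, hb, hlt.le⟩)
    rw [olim_unique hx hlim]
    exact hx'
  push Not at hcase
  right
  -- bounding function
  have hg : ∀ (n : ℕ) (a : X), ∃ g ∈ A,
      (({s ∈ F n | (∃ b ∈ A, s ⊆ Set.Iio b) ∧ (s ∩ Set.Ici a).Nonempty}).Finite →
        ∀ s ∈ F n, (∃ b ∈ A, s ⊆ Set.Iio b) → (s ∩ Set.Ici a).Nonempty → s ⊆ Set.Iio g) ∧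
      (¬ ({s ∈ F n | (∃ b ∈ A, s ⊆ Set.Iio b) ∧ (s ∩ Set.Ici a).Nonempty}).Finite →
        ¬ ({s ∈ F n | (s ∩ Set.Ico a g).Nonempty}).Finite) := by
    intro n a
    by_cases hfin : ({s ∈ F n | (∃ b ∈ A, s ⊆ Set.Iio b) ∧ (s ∩ Set.Ici a).Nonempty}).Finite
    · have hb : ∀ s : {s ∈ F n | (∃ b ∈ A, s ⊆ Set.Iio b) ∧ (s ∩ Set.Ici a).Nonempty},
          ∃ b ∈ A, s.1 ⊆ Set.Iio b := fun s => s.2.2.1
      choose b hbA hb using hb
      have : Countable {s ∈ F n | (∃ b ∈ A, s ⊆ Set.Iio b) ∧ (s ∩ Set.Ici a).Nonempty} :=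
        hfin.countable.to_subtype
      obtain ⟨g, hgA, hgb⟩ := om_bdd hA (Set.countable_range b) (by
        rintro x ⟨s, rfl⟩
        exact ⟨b s, hbA s, le_rfl⟩)
      refine ⟨g, hgA, fun _ s hs h1 h2 => ?_, fun hh => absurd hfin hh⟩
      intro y hy
      exact lt_trans (hb ⟨s, hs, h1, h2⟩ hy) (hgb _ ⟨_, rfl⟩)
    · have hinf : ({s ∈ F n | (∃ b ∈ A, s ⊆ Set.Iio b) ∧ (s ∩ Set.Ici a).Nonempty}).Infinite :=
        hfin
      let σ := hinf.natEmbedding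
      have hp : ∀ j, ∃ p, p ∈ (σ j).1 ∧ a ≤ p := fun j => by
        obtain ⟨p, hp1, hp2⟩ := (σ j).2.2.2
        exact ⟨p, hp1, hp2⟩
      choose p hp1 hp2 using hp
      obtain ⟨g, hgA, hgp⟩ := om_bdd_seq hA p (fun j => by
        obtain ⟨b, hb, hlt⟩ := (hT (hF.sub n _ (σ j).2.1 (hp1 j))).2
        exact ⟨b, hb, hlt.le⟩)
      refine ⟨g, hgA, fun hh => absurd hh hfin, fun _ => ?_⟩
      intro hfin2
      have hinj : Function.Injective (fun j => (σ j).1) := fun i j hij =>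
        σ.injective (Subtype.ext hij)
      have h3 : (Set.range (fun j => (σ j).1)).Infinite := Set.infinite_range_of_injective hinj
      apply h3
      refine hfin2.subset ?_
      rintro s ⟨j, rfl⟩
      exact ⟨(σ j).2.1, p j, hp1 j, hp2 j, hgp j⟩
  choose g hgA hg1 hg2 using hg
  let Z : Set X := {z | z ∈ EE A k ∧ (∀ a ∈ A, a < z → ∀ n, g n a < z) ∧
    ∀ W, IsOpen W → z ∈ W → ∃ a ∈ A, a < z ∧ a ∈ W}
  refine ⟨Z, ⟨fun z hz => hz.1, ?_, ?_⟩, ?_⟩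
  · -- unbounded
    have hG : ∀ x, (∃ b ∈ A, x ≤ b) → ∃ G ∈ A, x < G ∧ ∀ a ∈ A, a ≤ x → ∀ n, g n a < G := by
      rintro x ⟨b, hb, hxb⟩
      have hc : ({x} ∪ ⋃ n, g n '' ((A ∩ Set.Iio b) ∪ {b})).Countable :=
        (Set.countable_singleton x).union (Set.countable_iUnion fun n =>
          ((hA.seg b hb).union (Set.countable_singleton b)).image _)
      obtain ⟨G, hGA, hG⟩ := om_bdd hA hc (by
        rintro y (hy | hy)
        · rw [Set.mem_singleton_iff.1 hy]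
          exact ⟨b, hb, hxb⟩
        · obtain ⟨n, hn⟩ := Set.mem_iUnion.1 hy
          obtain ⟨a, _, rfl⟩ := hn
          exact ⟨_, hgA n a, le_rfl⟩)
      refine ⟨G, hGA, hG x (Or.inl rfl), fun a ha hax n => hG _ (Or.inr ?_)⟩
      refine Set.mem_iUnion.2 ⟨n, a, ?_, rfl⟩
      rcases lt_or_eq_of_le (hax.trans hxb) with hh | hh
      · exact Or.inl ⟨ha, hh⟩
      · exact Or.inr hh
    intro a0 ha0
    have hstep : ∀ a : A, ∃ c : A, ∃ z ∈ EE A k, a.1 < z ∧ (∀ a' ∈ A, a' ≤ a.1 → ∀ n, g n a' < z) ∧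
        z < c.1 := by
      rintro ⟨a, ha⟩
      obtain ⟨G, hGA, haG, hG⟩ := hG a ⟨a, ha, le_rfl⟩
      obtain ⟨z, hzk, hGz, c, hc, hzc⟩ := hunb G hGA
      exact ⟨⟨c, hc⟩, z, ⟨hzk, c, hc, hzc⟩, haG.trans hGz,
        fun a' ha' haa n => (hG a' ha' haa n).trans hGz, hzc⟩
    choose c z hzE haz hgz hzc using hstep
    let as : ℕ → A := fun i => Nat.rec ⟨a0, ha0⟩ (fun _ a => c a) i
    have has : ∀ i, as (i + 1) = c (as i) := fun i => rfl
    have hmono : StrictMono fun i => z (as i) := by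
      apply strictMono_nat_of_lt_succ
      intro i
      refine lt_trans (hzc (as i)) ?_
      rw [← has]
      exact haz _
    obtain ⟨x, hxk, hlim, htop, hxb⟩ := cc_lim h hA hk hmono (fun i => (hzE (as i)).1)
      (fun i => ⟨_, (c (as i)).2, (hzc (as i)).le⟩)
    refine ⟨x, ⟨⟨hxk, hxb⟩, ?_, ?_⟩, ?_⟩
    · intro a ha hax n
      obtain ⟨i, hi⟩ := hlim.2 a hax
      have h1 : a ≤ (as (i + 1)).1 := by
        rw [has]
        exact (hi.trans (hzc _)).le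
      exact (hgz (as (i + 1)) a ha h1 n).trans (hlim.1 (i + 1))
    · intro W hW hxW
      obtain ⟨V, ⟨hVo, hVc⟩, hxV, hVW⟩ := h.bas.exists_subset_of_mem_open hxW hW
      obtain ⟨i, hi⟩ := htop V hVo hxV
      have h1 : (as (i + 1)).1 < x := (haz (as (i + 1))).trans (hlim.1 (i + 1))
      refine ⟨_, (as (i + 1)).2, h1, hVW (hVc.out hi hxV ⟨?_, h1.le⟩)⟩
      rw [has]
      exact (hzc _).le
    · exact (haz (as 0)).trans (hlim.1 0)
  · -- closed
    intro e he heZ x hx hlim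
    obtain ⟨x', _, hlim', htop, _⟩ := cc_lim h hA hk he (fun i => (heZ i).1.1) (fun i => by
      obtain ⟨b, hb, hlt⟩ := (heZ i).1.2
      exact ⟨b, hb, hlt.le⟩)
    have hxx : x = x' := olim_unique hlim hlim'
    subst hxx
    refine ⟨hx, ?_, ?_⟩
    · intro a ha hax n
      obtain ⟨i, hi⟩ := hlim.2 a hax
      exact ((heZ i).2.1 a ha hi n).trans (hlim.1 i)
    · intro W hW hxW
      obtain ⟨i, hi⟩ := htop W hW hxW
      obtain ⟨a, ha, hai, haW⟩ := (heZ i).2.2 W hW hi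
      exact ⟨a, ha, hai.trans (hlim.1 i), haW⟩
  · -- disjoint from `T`
    rintro z ⟨hzE, hz1, hz2⟩ hzT
    have hkey : ∀ n, ∀ s ∈ F n, (∃ b ∈ A, s ⊆ Set.Iio b) → z ∉ s := by
      intro n s hs hsb hzs
      obtain ⟨V, hVo, hzV, hVfin⟩ := hF.lf n z hzT
      obtain ⟨V', ⟨hVo', hVc'⟩, hzV', hVV⟩ := h.bas.exists_subset_of_mem_open hzV hVo
      obtain ⟨a, ha, haz, haV⟩ := hz2 V' hVo' hzV'
      have hgz := hz1 a ha haz n
      have hfin : ({s ∈ F n | (∃ b ∈ A, s ⊆ Set.Iio b) ∧ (s ∩ Set.Ici a).Nonempty}).Finite := by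
        by_contra hinf
        apply hg2 n a hinf
        refine hVfin.subset ?_
        rintro s ⟨hs, p, hps, hap, hpg⟩
        exact ⟨hs, p, hps, hVV (hVc'.out haV hzV' ⟨hap, (hpg.trans hgz).le⟩)⟩
      exact absurd (hg1 n a hfin s hs hsb ⟨z, hzs, haz.le⟩ hzs) (not_lt.2 hgz.le)
    obtain ⟨k', hk', hzk'⟩ := hF.cov z hzT
    obtain ⟨a, ha, hka⟩ := hcase k' hk'
    obtain ⟨b, hb, hab⟩ := om_nomax hA ha
    obtain ⟨n, s, hs, hks, hsb⟩ := hF.net k' hk' (Set.Iio b) (h.ray b).2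
      (fun y hy => lt_of_le_of_lt (hka y hy) hab)
    exact hkey n s hs ⟨b, hb, hsb⟩ (hks hzk')

end

theorem om_card {X : Type} [LinearOrder X] {A : Set X} (hA : Om A) :
    ∃ r : A → (ℕ → Bool), Function.Injective r := by
  have h0 : WellFounded ((· < ·) : A → A → Prop) := by
    have := hA.wf
    rw [Set.wellFoundedOn_iff] at this
    refine Subrelation.wf ?_ (InvImage.wf (fun a : A => a.1) this)
    intro a b hab
    exact ⟨hab, a.2, b.2⟩
  have hwf : IsWellOrder A (· < ·) := { wf := h0 }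
  have h1 : Cardinal.mk A ≤ Cardinal.aleph 1 := by
    by_contra hcon
    push Not at hcon
    have h2 : (Cardinal.aleph 1).ord < Ordinal.type ((· < ·) : A → A → Prop) := by
      refine lt_of_le_of_ne (Cardinal.ord_le.2 ?_) ?_
      · rw [Ordinal.card_type]
        exact hcon.le
      · intro heq
        have := congrArg Ordinal.card heq
        rw [Ordinal.card_type, Cardinal.card_ord] at this
        exact absurd this hcon.ne
    obtain ⟨a, ha⟩ := Ordinal.typein_surj _ h2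
    have h3 := congrArg Ordinal.card ha
    rw [Cardinal.card_ord] at h3
    have h4 : (Ordinal.typein ((· < ·) : A → A → Prop) a).card ≤ Cardinal.aleph0 := by
      rw [Ordinal.card_typein]
      rw [Cardinal.mk_le_aleph0_iff]
      have h5 := hA.seg a.1 a.2
      have : Countable ↑(A ∩ Set.Iio a.1) := h5.to_subtype
      exact Function.Injective.countable (f := fun b : {b : A // b < a} =>
        (⟨b.1.1, b.1.2, b.2⟩ : ↑(A ∩ Set.Iio a.1))) (fun b c hbc => by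
          apply Subtype.ext
          apply Subtype.ext
          exact congrArg (fun t : ↑(A ∩ Set.Iio a.1) => t.1) hbc)
    have h6 : Cardinal.aleph0 < Cardinal.aleph 1 := Cardinal.aleph0_lt_aleph_one
    exact absurd (h3 ▸ h4) (not_le.2 h6)
  have h2 : Cardinal.mk A ≤ Cardinal.mk (ℕ → Bool) := by
    refine h1.trans (Cardinal.aleph_one_le_continuum.trans ?_)
    simp
  obtain ⟨f⟩ := Cardinal.le_def _ _ |>.1 h2
  exact ⟨f, f.injective⟩

/-- A GO space that is hereditarily Σ has no countably compact subset `k` in which an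
`ω₁`-sequence is interleaved cofinally. -/
theorem no_cc (X : Type) [LinearOrder X] [TopologicalSpace X] (h : GO X)
    (hS : ∀ Y : Set X, ∃ F K, Sig Y F K) (A : Set X) (hA : Om A) (k : Set X) (hk : CC k)
    (hunb : ∀ a ∈ A, ∃ z ∈ k, a < z ∧ ∃ b ∈ A, z < b) : False := by
  obtain ⟨r, hr⟩ := om_card hA
  -- least element of `A` above `z`
  have hρ : ∀ z : X, (∃ b ∈ A, z < b) → ∃ c : A, z < c.1 ∧ ∀ b ∈ A, z < b → c.1 ≤ b := by
    rintro z ⟨b, hb, hzb⟩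
    have hwf := hA.wf
    rw [Set.wellFoundedOn_iff] at hwf
    have hne : (A ∩ Set.Ioi z).Nonempty := ⟨b, hb, hzb⟩
    refine ⟨⟨hwf.min _ hne, (hwf.min_mem _ hne).1⟩, (hwf.min_mem _ hne).2, fun c hc hzc => ?_⟩
    by_contra hcon
    push Not at hcon
    exact hwf.not_lt_min (A ∩ Set.Ioi z) (x := c) ⟨hc, hzc⟩ ⟨hcon, hc, (hwf.min_mem _ hne).1⟩
  have hne : Nonempty A := (om_nonempty hA).to_subtype
  choose! ρ hρ1 hρ2 using hρ
  have hclub : ∀ n : ℕ, ∃ Z : Set X, Club A (EE A k) Z ∧ ∃ v : Bool, ∀ z ∈ Z, r (ρ z) n = v := by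
    intro n
    obtain ⟨F, K, hF⟩ := hS {z | z ∈ EE A k ∧ r (ρ z) n = true}
    rcases club_dichotomy h hA hk hunb (fun z hz => hz.1) hF with ⟨Z, hZ, hZT⟩ | ⟨Z, hZ, hZT⟩
    · exact ⟨Z, hZ, true, fun z hz => (hZT hz).2⟩
    · refine ⟨Z, hZ, false, fun z hz => ?_⟩
      by_contra hne
      exact hZT z hz ⟨hZ.sub hz, by simpa using hne⟩
  choose Z hZ v hv using hclub
  obtain ⟨a, ha⟩ := om_nonempty hA
  obtain ⟨z, _, hzE, hz⟩ := club_inter h hA hk hZ ha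
  obtain ⟨z', hlt, hzE', hz'⟩ := club_inter h hA hk hZ (ρ z).2
  have h1 : ρ z = ρ z' := hr (funext fun n => (hv n z (hz n)).trans (hv n z' (hz' n)).symm)
  have h2 := hρ1 z' hzE'.2
  rw [← h1] at h2
  exact absurd h2 (not_lt.2 hlt.le)

end Pool.Agent.Helper648.HS
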