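import Pool.Agent.Helper648.HS.Defs
set_option autoImplicit false
/-! The lemma `no_limit`, proved by helper418 (job 100). -/
namespace Pool.Agent.Helper648.HS
open Set Topology

lemma Om.bd {X : Type} [LinearOrder X] {A : Set X} (hA : Om A) {B : Set X} (hB : B ⊆ A)
    (hc : B.Countable) : ∃ c ∈ A, ∀ b ∈ B, b < c := by
  by_contra hcon
  push Not at hcon
  apply hA.unc
  have h1 : A ⊆ ⋃ b ∈ B, (A ∩ Set.Iio b) ∪ {b} := by
    intro a ha
    obtain ⟨b, hb, hab⟩ := hcon a ha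
    simp only [mem_iUnion]
    refine ⟨b, hb, ?_⟩
    rcases lt_or_eq_of_le hab with h | h
    · left; exact ⟨ha, h⟩
    · right; exact h
  refine Countable.mono h1 (Countable.biUnion hc fun b hb => ?_)
  exact (hA.seg b (hB hb)).union (countable_singleton b)

lemma Om.succ {X : Type} [LinearOrder X] {A : Set X} (hA : Om A) :
    ∃ σ : X → X, ∀ b ∈ A, σ b ∈ A ∧ b < σ b ∧ ∀ c ∈ A, b < c → σ b ≤ c := by
  have h : ∀ b : X, ∃ a : X, b ∈ A → a ∈ A ∧ b < a ∧ ∀ c ∈ A, b < c → a ≤ c := by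
    intro b
    by_cases hb : b ∈ A
    · have hwf : Set.IsWF {a | a ∈ A ∧ b < a} := hA.wf.subset (fun a ha => ha.1)
      have hne : {a | a ∈ A ∧ b < a}.Nonempty := by
        obtain ⟨c, hc, hbc⟩ := hA.bd (B := {b}) (by simpa using hb) (countable_singleton b)
        exact ⟨c, hc, hbc b rfl⟩
      refine ⟨hwf.min hne, fun _ => ⟨(hwf.min_mem hne).1, (hwf.min_mem hne).2, ?_⟩⟩
      intro c hc hbc
      exact hwf.min_le hne ⟨hc, hbc⟩
    · exact ⟨b, fun h => absurd h hb⟩
  choose σ hσ using h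
  exact ⟨σ, hσ⟩

/-- A GO space that is hereditarily Σ has no point which is the limit of an `ω₁`-sequence. -/
theorem no_limit (X : Type) [LinearOrder X] [TopologicalSpace X] (h : GO X)
    (hS : ∀ Y : Set X, ∃ F K, Sig Y F K) (A : Set X) (hA : Om A) (x : X)
    (hx : ∀ a ∈ A, a < x) (hcl : x ∈ closure A) : False := by
  obtain ⟨σ, hσ⟩ := hA.succ
  have hσinj : InjOn σ A := by
    have key : ∀ b ∈ A, ∀ b' ∈ A, b < b' → σ b < σ b' := fun b hb b' hb' hlt =>
      ((hσ b hb).2.2 b' hb' hlt).trans_lt (hσ b' hb').2.1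
    intro b hb b' hb' heq
    rcases lt_trichotomy b b' with h1 | h1 | h1
    · exact absurd heq (key b hb b' hb' h1).ne
    · exact h1
    · exact absurd heq.symm (key b' hb' b hb h1).ne
  set A' : Set X := σ '' A with hA'def
  have hA'A : A' ⊆ A := by
    rintro _ ⟨b, hb, rfl⟩
    exact (hσ b hb).1
  have hA'unc : ¬ A'.Countable := fun hc =>
    hA.unc (countable_of_injective_of_countable_image hσinj hc)
  have hpred : ∀ a : X, ∃ b : X, a ∈ A' → b ∈ A ∧ σ b = a := by
    intro a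
    by_cases ha : a ∈ A'
    · obtain ⟨b, hb, rfl⟩ := ha
      exact ⟨b, fun _ => ⟨hb, rfl⟩⟩
    · exact ⟨a, fun h => absurd h ha⟩
  choose π hπ using hpred
  set O : X → Set X := fun a => Ioo (π a) (σ a) with hO
  have hOopen : ∀ a, IsOpen (O a) := fun a => by
    have : O a = Ioi (π a) ∩ Iio (σ a) := rfl
    rw [this]
    exact (h.ray _).1.inter (h.ray _).2
  have hOmem : ∀ a ∈ A', a ∈ O a := by
    intro a ha
    obtain ⟨h1, h2⟩ := hπ a ha
    refine ⟨?_, (hσ a (hA'A ha)).2.1⟩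
    have := (hσ _ h1).2.1
    rwa [h2] at this
  have hOA : ∀ a ∈ A', ∀ c ∈ A, c ∈ O a → c = a := by
    intro a ha c hc hcO
    obtain ⟨h1, h2⟩ := hπ a ha
    have h3 : a ≤ c := by
      have := (hσ _ h1).2.2 c hc hcO.1
      rwa [h2] at this
    rcases lt_or_eq_of_le h3 with h4 | h4
    · have := (hσ a (hA'A ha)).2.2 c hc h4
      exact absurd hcO.2 (not_lt.mpr this)
    · exact h4.symm
  have hxO : ∀ a ∈ A', x ∉ O a := by
    intro a ha hxa
    have h1 := hx _ (hσ a (hA'A ha)).1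
    exact absurd hxa.2 (not_lt.mpr h1.le)
  obtain ⟨F, K, S⟩ := hS (A' ∪ {x})
  have hY0 : ∀ z ∈ A' ∪ {x}, z ∈ A' ∨ z = x := fun z hz => hz
  -- (i)
  have hfin : ∀ k ∈ K, (k ∩ A').Finite := by
    intro k hk
    by_contra hinf
    have hinf' : (k ∩ A').Infinite := hinf
    set f := hinf'.natEmbedding with hf
    obtain ⟨c, hc, hcb⟩ := hA.bd (B := range fun i => (f i : X))
      (by rintro _ ⟨i, rfl⟩; exact hA'A (f i).2.2) (countable_range _)
    set u : ℕ → Set X := fun n => Nat.casesOn n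
      (Ioi c ∪ ⋃ a ∈ A' \ range fun i => (f i : X), O a) (fun i => O (f i)) with hu
    have hu0 : u 0 = Ioi c ∪ ⋃ a ∈ A' \ range fun i => (f i : X), O a := rfl
    have hu1 : ∀ i, u (i + 1) = O (f i) := fun i => rfl
    obtain ⟨t, ht⟩ := S.cc k hk u (by
      intro n
      rcases n with _ | i
      · rw [hu0]
        exact (h.ray c).1.union (isOpen_biUnion fun a _ => hOopen a)
      · rw [hu1]; exact hOopen _) (by
      intro y hy
      rw [mem_iUnion]
      rcases hY0 y (S.ksub k hk hy) with h1 | h1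
      · by_cases h2 : y ∈ range fun i => (f i : X)
        · obtain ⟨i, rfl⟩ := h2
          exact ⟨i + 1, by rw [hu1]; exact hOmem _ h1⟩
        · refine ⟨0, ?_⟩
          rw [hu0]
          right
          simp only [mem_iUnion]
          exact ⟨y, ⟨h1, h2⟩, hOmem y h1⟩
      · refine ⟨0, ?_⟩
        rw [hu0]
        left
        rw [h1]
        exact hx c hc)
    obtain ⟨i, hi⟩ : ∃ i, i + 1 ∉ t := by
      refine ⟨t.sup id, fun hmem => ?_⟩
      have := Finset.le_sup (f := id) hmem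
      simp only [id] at this
      omega
    have h1 := ht (f i).2.1
    simp only [mem_iUnion] at h1
    obtain ⟨n, hn, h2⟩ := h1
    rcases n with _ | j
    · rw [hu0] at h2
      rcases h2 with h2 | h2
      · exact absurd (hcb _ ⟨i, rfl⟩) (not_lt.mpr (le_of_lt h2))
      · simp only [mem_iUnion] at h2
        obtain ⟨a, ha, h3⟩ := h2
        have h4 := hOA a ha.1 _ (hA'A (f i).2.2) h3
        exact ha.2 ⟨i, h4⟩
    · rw [hu1] at h2
      have h4 := hOA _ (f j).2.2 _ (hA'A (f i).2.2) h2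
      have h5 : f i = f j := Subtype.ext h4
      have h6 : i = j := f.injective h5
      rw [h6] at hi
      exact hi hn
  -- (ii)
  have hxY : x ∈ A' ∪ {x} := Or.inr rfl
  have hlf : ∀ n, ∃ c ∈ A, ∃ V : Set X, {s ∈ F n | (s ∩ V).Nonempty}.Finite ∧
      ∀ z, c < z → z ≤ x → z ∈ V := by
    intro n
    obtain ⟨V, hVo, hxV, hVf⟩ := S.lf n x hxY
    obtain ⟨W, hW, hxW, hWV⟩ := h.bas.mem_nhds_iff.mp (hVo.mem_nhds hxV)
    obtain ⟨c, hcW, hcA⟩ := mem_closure_iff.mp hcl W hW.1 hxW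
    exact ⟨c, hcA, V, hVf, fun z hcz hzx => hWV (hW.2.out hcW hxW ⟨hcz.le, hzx⟩)⟩
  choose cn hcnA Vn hVnf hVn using hlf
  obtain ⟨c, hcA, hcb⟩ := hA.bd (B := range cn) (by rintro _ ⟨i, rfl⟩; exact hcnA i)
    (countable_range _)
  set Φ : Set (Set X) := {s | ∃ n, s ∈ F n ∧ (s ∩ Ioi c).Nonempty} with hΦ
  have hΦc : Φ.Countable := by
    have h1 : Φ ⊆ ⋃ n, {s ∈ F n | (s ∩ Vn n).Nonempty} := by
      rintro s ⟨n, hs, z, hzs, hzc⟩
      rw [mem_iUnion]
      refine ⟨n, hs, z, hzs, hVn n z ((hcb _ ⟨n, rfl⟩).trans hzc) ?_⟩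
      rcases hY0 z (S.sub n s hs hzs) with h2 | h2
      · exact (hx z (hA'A h2)).le
      · exact h2.le
    exact Countable.mono h1 (countable_iUnion fun n => (hVnf n).countable)
  -- (iii)
  have hkΦ : ∀ a ∈ A', c < a → ∀ k ∈ K, a ∈ k → k ∈ Φ := by
    intro a ha hca k hk hak
    set OO : Set X := ⋃ a' ∈ k ∩ A', O a' with hOO
    have hOOo : IsOpen OO := isOpen_biUnion fun a _ => hOopen a
    have hOOY : ∀ z ∈ OO, z ∈ A' ∪ {x} → z ∈ k ∩ A' := by
      intro z hz hzY
      simp only [hOO, mem_iUnion] at hz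
      obtain ⟨a', ha', hz'⟩ := hz
      rcases hY0 z hzY with h1 | h1
      · have := hOA a' ha'.2 z (hA'A h1) hz'
        rw [this]; exact ha'
      · rw [h1] at hz'
        exact absurd hz' (hxO a' ha'.2)
    have hkO : ∀ z ∈ k, z ∈ A' → z ∈ OO := by
      intro z hz hzA
      simp only [hOO, mem_iUnion]
      exact ⟨z, ⟨hz, hzA⟩, hOmem z hzA⟩
    by_cases hxk : x ∈ k
    · by_contra hkn
      have hy : ∀ s : Set X, ∃ y : X, s ∈ Φ → k ⊆ s → y ∈ s ∧ y ∉ k := by
        intro s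
        by_cases hs : s ∈ Φ ∧ k ⊆ s
        · have hne : ¬ s ⊆ k := by
            intro hsk
            have : s = k := Subset.antisymm hsk hs.2
            rw [this] at hs
            exact hkn hs.1
          obtain ⟨y, hy1, hy2⟩ := not_subset.mp hne
          exact ⟨y, fun _ _ => ⟨hy1, hy2⟩⟩
        · exact ⟨x, fun h1 h2 => absurd ⟨h1, h2⟩ hs⟩
      choose y hy using hy
      have hyA : ∀ s ∈ Φ, k ⊆ s → y s ∈ A' := by
        intro s hs hks
        obtain ⟨h1, h2⟩ := hy s hs hks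
        obtain ⟨n, hn, _⟩ := hs
        rcases hY0 _ (S.sub n s hn h1) with h3 | h3
        · exact h3
        · rw [h3] at h2; exact absurd hxk h2
      obtain ⟨b, hbA, hbb⟩ := hA.bd (B := y '' {s | s ∈ Φ ∧ k ⊆ s})
        (by rintro _ ⟨s, hs, rfl⟩; exact hA'A (hyA s hs.1 hs.2))
        ((hΦc.mono fun s hs => hs.1).image y)
      obtain ⟨n, s, hs, hks, hsU⟩ := S.net k hk (OO ∪ Ioi b) (hOOo.union (h.ray b).1) (by
        intro z hz
        rcases hY0 z (S.ksub k hk hz) with h1 | h1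
        · left; exact hkO z hz h1
        · right; rw [h1]; exact hx b hbA)
      have hsΦ : s ∈ Φ := ⟨n, hs, a, hks hak, hca⟩
      obtain ⟨h1, h2⟩ := hy s hsΦ hks
      rcases hsU h1 with h3 | h3
      · exact h2 (hOOY _ h3 (Or.inl (hyA s hsΦ hks))).1
      · exact absurd (hbb _ ⟨s, ⟨hsΦ, hks⟩, rfl⟩) (not_lt.mpr (le_of_lt h3))
    · obtain ⟨n, s, hs, hks, hsU⟩ := S.net k hk OO hOOo (by
        intro z hz
        rcases hY0 z (S.ksub k hk hz) with h1 | h1
        · exact hkO z hz h1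
        · rw [h1] at hz; exact absurd hz hxk)
      have : s = k := by
        apply Subset.antisymm _ hks
        intro z hz
        exact (hOOY z (hsU hz) (S.sub n s hs hz)).1
      rw [this] at hs
      exact ⟨n, hs, a, hak, hca⟩
  -- (iv)
  apply hA'unc
  have h1 : A' ⊆ (⋃ k ∈ Φ ∩ K, k ∩ A') ∪ ((A ∩ Iio c) ∪ {c}) := by
    intro a ha
    rcases lt_trichotomy a c with h2 | h2 | h2
    · right; left; exact ⟨hA'A ha, h2⟩
    · right; right; exact h2
    · left
      obtain ⟨k, hk, hak⟩ := S.cov a (Or.inl ha)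
      simp only [mem_iUnion]
      exact ⟨k, ⟨hkΦ a ha h2 k hk hak, hk⟩, hak, ha⟩
  refine Countable.mono h1 (Countable.union ?_ ((hA.seg c hcA).union (countable_singleton c)))
  exact Countable.biUnion (hΦc.mono inter_subset_left) fun k hk => (hfin k hk.2).countable

end Pool.Agent.Helper648.HS
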