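import Pool.Agent.Helper648.HS.Defs
set_option autoImplicit false
namespace Pool.Agent.Helper648.HS
open Set Topology

/-- a decreasing sequence of partitions into open convex sets -/
structure Part {X : Type} [LinearOrder X] [TopologicalSpace X] (P : ℕ → X → Set X) : Prop where
  self : ∀ n x, x ∈ P n x
  eq : ∀ n x y, y ∈ P n x → P n y = P n x
  opn : ∀ n x, IsOpen (P n x)
  conv : ∀ n x, (P n x).OrdConnected
  anti : ∀ n x, P (n + 1) x ⊆ P n x

/-- the classes -/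
def Sc {X : Type} (P : ℕ → X → Set X) (x : X) : Set X := ⋂ n, P n x

section
variable {X : Type} [LinearOrder X] [TopologicalSpace X] {P : ℕ → X → Set X}

theorem Part.dual (hP : Part P) : Part (X := Xᵒᵈ) P := by
  refine ⟨hP.self, hP.eq, hP.opn, fun n x => ⟨fun a ha b hb c hc => ?_⟩, hP.anti⟩
  exact (hP.conv n x).out (x := OrderDual.ofDual b) (y := OrderDual.ofDual a) hb ha
    ⟨hc.2, hc.1⟩

theorem Part.clopen (hP : Part P) (n : ℕ) (x : X) : IsClosed (P n x) := by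
  rw [← isOpen_compl_iff, isOpen_iff_mem_nhds]
  intro y hy
  refine Filter.mem_of_superset ((hP.opn n y).mem_nhds (hP.self n y)) ?_
  intro z hz hzx
  apply hy
  rw [← hP.eq n x z hzx, hP.eq n y z hz]
  exact hP.self n y

theorem Part.mono (hP : Part P) (x : X) {m n : ℕ} (hmn : m ≤ n) : P n x ⊆ P m x :=
  antitone_nat_of_succ_le (f := fun n => P n x) (fun n => hP.anti n x) hmn

theorem Part.Sself (hP : Part P) (x : X) : x ∈ Sc P x := mem_iInter.mpr fun n => hP.self n x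

theorem Part.Seq (hP : Part P) {x y : X} (hy : y ∈ Sc P x) : Sc P y = Sc P x :=
  iInter_congr fun n => hP.eq n x y (mem_iInter.mp hy n)

theorem Part.Sconv (hP : Part P) (x : X) : (Sc P x).OrdConnected :=
  ordConnected_iInter fun n => hP.conv n x

theorem Part.Sclosed (hP : Part P) (x : X) : IsClosed (Sc P x) :=
  isClosed_iInter fun n => hP.clopen n x

theorem Part.Slt (hP : Part P) {y y' : X} (hne : Sc P y ≠ Sc P y') (hlt : y < y') {u u' : X}
    (hu : u ∈ Sc P y) (hu' : u' ∈ Sc P y') : u < u' := by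
  by_contra hcon
  push Not at hcon
  rcases le_or_gt u' y with h1 | h1
  · have : y ∈ Sc P y' := (hP.Sconv y').out hu' (hP.Sself y') ⟨h1, hlt.le⟩
    exact hne (hP.Seq this)
  · have : u' ∈ Sc P y := (hP.Sconv y).out (hP.Sself y) hu ⟨h1.le, hcon⟩
    exact hne ((hP.Seq this).symm.trans (hP.Seq hu'))

omit [TopologicalSpace X] in
theorem ca_exists (T : Set X) (hT : T.Nonempty) :
    ∃ a ∈ T, (∀ m, IsLeast T m → a = m) ∧ ((∃ u ∈ T, ∃ v ∈ T, u < v) → ∃ b ∈ T, a < b) := by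
  by_cases hm : ∃ m, IsLeast T m
  · obtain ⟨m, hm⟩ := hm
    refine ⟨m, hm.1, fun m' hm' => hm.unique hm', ?_⟩
    rintro ⟨u, hu, v, hv, huv⟩
    exact ⟨v, hv, lt_of_le_of_lt (hm.2 hu) huv⟩
  · push Not at hm
    obtain ⟨t, ht⟩ := hT
    have : ∃ u ∈ T, u < t := by
      by_contra hcon
      push Not at hcon
      exact hm t ⟨ht, hcon⟩
    obtain ⟨u, hu, hut⟩ := this
    exact ⟨u, hu, fun m' hm' => absurd hm' (hm m'), fun _ => ⟨t, ht, hut⟩⟩

/-- chosen point of a set -/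
noncomputable def ca (T : Set X) (hT : T.Nonempty) : X := (ca_exists T hT).choose

omit [TopologicalSpace X] in
theorem ca_congr {T T' : Set X} (e : T = T') (h1 : T.Nonempty) (h2 : T'.Nonempty) :
    ca T h1 = ca T' h2 := by
  subst e; rfl

/-- representative of the class of `x` -/
noncomputable def aa (hP : Part P) (x : X) : X := ca (Sc P x) ⟨x, hP.Sself x⟩

theorem aa_mem (hP : Part P) (x : X) : aa hP x ∈ Sc P x :=
  (ca_exists (Sc P x) ⟨x, hP.Sself x⟩).choose_spec.1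

theorem aa_least (hP : Part P) (x : X) {m : X} (hm : IsLeast (Sc P x) m) : aa hP x = m :=
  (ca_exists (Sc P x) ⟨x, hP.Sself x⟩).choose_spec.2.1 m hm

theorem aa_lt (hP : Part P) (x : X) (hn : ∃ u ∈ Sc P x, ∃ v ∈ Sc P x, u < v) :
    ∃ b ∈ Sc P x, aa hP x < b :=
  (ca_exists (Sc P x) ⟨x, hP.Sself x⟩).choose_spec.2.2 hn

theorem aa_congr (hP : Part P) {x y : X} (hxy : Sc P x = Sc P y) : aa hP x = aa hP y :=
  ca_congr hxy _ _

theorem aa_idem (hP : Part P) {y x : X} (hy : y ∈ range (aa hP)) (hyx : y ∈ Sc P x) :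
    y = aa hP x := by
  obtain ⟨z, rfl⟩ := hy
  have h1 : Sc P (aa hP z) = Sc P z := hP.Seq (aa_mem hP z)
  have h2 : Sc P (aa hP z) = Sc P x := hP.Seq hyx
  exact aa_congr hP (h1.symm.trans h2)

/-- the left part of the argument -/
theorem left_part (h : GO X) (hS : ∀ Y : Set X, ∃ F K, Sig Y F K) (hP : Part P) :
    ∃ A : ℕ → ℕ → Set X, (∀ n m, A n m ⊆ range (aa hP)) ∧
      (∀ x, (∃ u ∈ Sc P x, ∃ v ∈ Sc P x, u < v) → ∃ n m, aa hP x ∈ A n m) ∧
      (∀ n m x, ∃ V, IsOpen V ∧ x ∈ V ∧ (A n m ∩ (V ∩ Iic x)).Finite) := by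
  obtain ⟨F, K, hY⟩ := hS (range (aa hP))
  refine ⟨fun n m => {p | p ∈ range (aa hP) ∧ ∃ s ∈ F n, IsGreatest (s ∩ P m p) p},
    fun n m p hp => hp.1, ?_, ?_⟩
  · intro x hx
    obtain ⟨b, hb, hab⟩ := aa_lt hP x hx
    set a := aa hP x with ha
    have haY : a ∈ range (aa hP) := ⟨x, rfl⟩
    obtain ⟨k, hk, hak⟩ := hY.cov a haY
    have hSa : Sc P a = Sc P x := hP.Seq (aa_mem hP x)
    obtain ⟨m, hm⟩ := (hY.cc k hk).mono_cover (fun m => Iio b ∪ (P m a)ᶜ)
      (fun m => (h.ray b).2.union (hP.clopen m a).isOpen_compl)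
      (fun m m' hmm => union_subset_union_right _ (compl_subset_compl.mpr (hP.mono a hmm))) (by
        intro y hy
        by_cases hyS : y ∈ Sc P a
        · have : y = aa hP x := aa_idem hP (hY.ksub k hk hy) (hSa ▸ hyS)
          refine mem_iUnion.mpr ⟨0, Or.inl ?_⟩
          rw [this]; exact hab
        · simp only [Sc, mem_iInter] at hyS
          push Not at hyS
          obtain ⟨m, hm⟩ := hyS
          exact mem_iUnion.mpr ⟨m, Or.inr hm⟩)
    obtain ⟨n, s, hs, h1, h2⟩ := hY.net k hk _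
      ((h.ray b).2.union (hP.clopen m a).isOpen_compl) hm
    refine ⟨n, m, haY, s, hs, ⟨h1 hak, hP.self m a⟩, ?_⟩
    rintro y ⟨hys, hyP⟩
    by_contra hcon
    push Not at hcon
    rcases h2 hys with h3 | h3
    · have hyS : y ∈ Sc P x := (hP.Sconv x).out (aa_mem hP x) hb ⟨hcon.le, (h3 : y < b).le⟩
      have : y = aa hP x := aa_idem hP (hY.sub n s hs hys) hyS
      rw [this] at hcon
      exact lt_irrefl _ hcon
    · exact h3 hyP
  · intro n m x
    by_cases hx : x ∈ range (aa hP)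
    · obtain ⟨V, hV, hxV, hfin⟩ := hY.lf n x hx
      refine ⟨V ∩ P m x, hV.inter (hP.opn m x), ⟨hxV, hP.self m x⟩, ?_⟩
      refine (hfin.biUnion (t := fun s => {p | IsGreatest (s ∩ P m x) p}) (fun s _ =>
        Set.Subsingleton.finite (fun a ha b hb => ha.unique hb))).subset ?_
      rintro p ⟨⟨-, s, hs, hg⟩, ⟨hpV, hpP⟩, -⟩
      refine mem_biUnion (x := s) ⟨hs, p, hg.1.1, hpV⟩ ?_
      show IsGreatest (s ∩ P m x) p
      rwa [← hP.eq m x p hpP]
    · have hne : aa hP x ≠ x := fun e => hx ⟨x, e⟩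
      rcases lt_or_gt_of_ne hne with h1 | h1
      · refine ⟨Ioi (aa hP x), (h.ray _).1, h1, ?_⟩
        refine (Set.finite_empty).subset ?_
        rintro p ⟨⟨hp, -⟩, hp1, hp2⟩
        have : p ∈ Sc P x := (hP.Sconv x).out (aa_mem hP x) (hP.Sself x)
          ⟨(hp1 : aa hP x < p).le, hp2⟩
        have := aa_idem hP hp this
        rw [this] at hp1
        exact absurd hp1 (lt_irrefl _)
      · have hnl : ∃ x' ∈ Sc P x, x' < x := by
          by_contra hcon
          push Not at hcon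
          exact hne (aa_least hP x ⟨hP.Sself x, hcon⟩)
        obtain ⟨x', hx', hlt⟩ := hnl
        refine ⟨Ioi x', (h.ray _).1, hlt, ?_⟩
        refine (Set.finite_empty).subset ?_
        rintro p ⟨⟨hp, -⟩, hp1, hp2⟩
        have : p ∈ Sc P x := (hP.Sconv x).out hx' (hP.Sself x)
          ⟨(hp1 : x' < p).le, hp2⟩
        have := aa_idem hP hp this
        rw [this] at hp2
        exact absurd hp2 (not_le.mpr h1)

/-- right part, by duality -/
theorem right_part (h : GO X) (hS : ∀ Y : Set X, ∃ F K, Sig Y F K) (hP : Part P) :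
    ∃ (bb : X → X) (B : ℕ → ℕ → Set X), (∀ x, bb x ∈ Sc P x) ∧
      (∀ x, (∃ u ∈ Sc P x, ∃ v ∈ Sc P x, u < v) → ∃ n m, bb x ∈ B n m) ∧
      (∀ n m x, ∃ V, IsOpen V ∧ x ∈ V ∧ (B n m ∩ (V ∩ Ici x)).Finite) := by
  have hS' : ∀ Y : Set Xᵒᵈ, ∃ F K, Sig Y F K := by
    intro Y
    obtain ⟨F, K, hFK⟩ := hS Y
    exact ⟨F, K, hFK.sub, hFK.lf, hFK.ksub, hFK.cov, hFK.cc, hFK.net⟩
  obtain ⟨B, -, h2, h3⟩ := left_part (X := Xᵒᵈ) h.dual hS' hP.dual
  refine ⟨aa (X := Xᵒᵈ) hP.dual, B, aa_mem (X := Xᵒᵈ) hP.dual, ?_, h3⟩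
  rintro x ⟨u, hu, v, hv, huv⟩
  exact h2 x ⟨v, hv, u, hu, huv⟩

end
end Pool.Agent.Helper648.HS
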