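import Pool.Agent.Helper648.HS.Tree
set_option autoImplicit false
namespace Pool.Agent.Helper648.HS
open Set Topology

section
variable {X : Type} [LinearOrder X] [TopologicalSpace X]

/-- the setoid of points such that the interval between them meets only countably many members -/
def rel (G : Set (Set X)) (hG : ∀ x, {s ∈ G | x ∈ s}.Countable) : Setoid X where
  r x y := {s ∈ G | (s ∩ uIcc x y).Nonempty}.Countable
  iseqv := by
    refine ⟨?_, ?_, ?_⟩
    · intro x
      refine (hG x).mono ?_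
      rintro s ⟨hs, y, hy, hyx⟩
      rw [uIcc_self, mem_singleton_iff] at hyx
      exact ⟨hs, hyx ▸ hy⟩
    · intro x y hxy
      rw [uIcc_comm]; exact hxy
    · intro x y z hxy hyz
      refine (hxy.union hyz).mono ?_
      rintro s ⟨hs, w, hw, hwz⟩
      rcases uIcc_sub3 (b := y) hwz with h1 | h1
      · exact Or.inl ⟨hs, w, hw, h1⟩
      · exact Or.inr ⟨hs, w, hw, h1⟩

omit [TopologicalSpace X] in
/-- a class meets countably many members -/
theorem class_countable (hT : Tame X) (G : Set (Set X)) (hG : ∀ x, {s ∈ G | x ∈ s}.Countable)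
    (e : X) : {s ∈ G | ∃ y ∈ s, (rel G hG).r e y}.Countable := by
  let Z : Set X := {y | (rel G hG).r e y}
  obtain ⟨-, hPc, hP⟩ := PL_spec hT Z
  obtain ⟨-, hQc, hQ⟩ := PR_spec hT Z
  have hPs := (PL_spec hT Z).1
  have hQs := (PR_spec hT Z).1
  have key : {s ∈ G | ∃ y ∈ s, (rel G hG).r e y} ⊆
      ⋃ p ∈ PL Z, ⋃ q ∈ PR Z, {s ∈ G | (s ∩ uIcc p q).Nonempty} := by
    rintro s ⟨hs, y, hy, hey⟩
    obtain ⟨p, hp, hpy⟩ := hP y hey
    obtain ⟨q, hq, hyq⟩ := hQ y hey
    refine mem_biUnion hp (mem_biUnion hq ⟨hs, y, hy, ?_⟩)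
    rw [mem_uIcc]; left; exact ⟨hpy, hyq⟩
  refine Countable.mono key (hPc.biUnion fun p hp => hQc.biUnion fun q hq => ?_)
  have h1 : (rel G hG).r p q := (rel G hG).trans ((rel G hG).symm (hPs hp)) (hQs hq)
  exact h1

/-- families which are locally finite off `Qt` are countable -/
theorem lf_countable (h : GO X) (hT : Tame X) {F K : Set (Set X)} (hC : CSig univ F K)
    (G : Set (Set X)) (hGs : ∀ s ∈ G, s ⊆ (Qt X)ᶜ)
    (hlf : ∀ y ∈ (Qt X)ᶜ, ∃ V, IsOpen V ∧ y ∈ V ∧ {s ∈ G | (s ∩ V).Nonempty}.Finite) :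
    G.Countable := by
  classical
  rcases isEmpty_or_nonempty X with hX | ⟨⟨x0⟩⟩
  · exact Set.to_countable _
  have hG : ∀ x, {s ∈ G | x ∈ s}.Countable := by
    intro x
    by_cases hx : x ∈ Qt X
    · refine Countable.mono ?_ (countable_empty (α := Set X))
      rintro s ⟨hs, hxs⟩
      exact absurd hx (hGs s hs hxs)
    · obtain ⟨V, -, hxV, hfin⟩ := hlf x hx
      exact (hfin.subset (fun s hs => ⟨hs.1, x, hs.2, hxV⟩)).countable
  let R := rel G hG
  let rep : X → X := fun x => (Quotient.mk R x).out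
  have hrep : ∀ x, R.r (rep x) x := fun x => Quotient.exact (Quotient.out_eq (Quotient.mk R x))
  have hrep2 : ∀ x y, R.r x y → rep x = rep y := by
    intro x y hxy
    have : Quotient.mk R x = Quotient.mk R y := Quotient.sound hxy
    simp only [rep, this]
  let E : Set X := range rep
  have hE1 : ∀ p ∈ E, ∀ q ∈ E, R.r p q → p = q := by
    rintro _ ⟨x, rfl⟩ _ ⟨y, rfl⟩ hxy
    exact hrep2 x y (R.trans (R.symm (hrep x)) (R.trans hxy (hrep y)))
  by_contra hGc
  have hEc : ¬ E.Countable := by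
    intro hEc
    apply hGc
    refine Countable.mono ?_ ((countable_singleton (∅ : Set X)).union
      (hEc.biUnion fun e _ => class_countable hT G hG e))
    intro s hs
    rcases s.eq_empty_or_nonempty with rfl | ⟨y, hy⟩
    · exact Or.inl rfl
    · exact Or.inr (mem_biUnion (mem_range_self y) ⟨hs, y, hy, hrep y⟩)
  let H : Set X := {x | ∀ W, IsOpen W → x ∈ W → ∃ p ∈ E, p ∈ W ∧ p ≠ x}
  have hHcl : IsClosed H := by
    rw [← isOpen_compl_iff, isOpen_iff_mem_nhds]
    intro x hx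
    simp only [H, mem_compl_iff, mem_ofPred_eq] at hx
    push Not at hx
    obtain ⟨W, hW, hxW, hW2⟩ := hx
    refine Filter.mem_of_superset (hW.mem_nhds hxW) ?_
    intro y hy hyH
    by_cases hyx : y = x
    · subst hyx
      obtain ⟨p, hp, hpW, hpy⟩ := hyH W hW hy
      exact hpy (hW2 p hp hpW)
    · obtain ⟨p, hp, hpW, -⟩ := hyH (W \ {x}) (hW.sdiff (h.closedSingleton x)) ⟨hy, hyx⟩
      exact hpW.2 (hW2 p hp hpW.1)
  have hHQ : H ⊆ Qt X := by
    intro x hx
    by_contra hxQ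
    obtain ⟨V, hV, hxV, hfin⟩ := hlf x hxQ
    obtain ⟨V', hV', hVo, hxV', hVV⟩ := h.nhd hV hxV
    have hcls : ∀ p ∈ V', R.r x p := by
      intro p hp
      refine (hfin.subset ?_).countable
      rintro s ⟨hs, y, hy, hyp⟩
      exact ⟨hs, y, hy, hVV (hVo.uIcc_subset hxV' hp hyp)⟩
    obtain ⟨p, hp, hpV, hpx⟩ := hx V' hV' hxV'
    obtain ⟨q, hq, hqV, -⟩ := hx (V' \ {p}) (hV'.sdiff (h.closedSingleton p)) ⟨hxV', Ne.symm hpx⟩
    exact hqV.2 (hE1 q hq p hp (R.trans (R.symm (hcls q hqV.1)) (hcls p hpV)))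
  have hHc : H.Countable := closed_countable h hT hC H hHcl hHQ
  obtain ⟨D, hDc, hD0, hDcl⟩ := exists_closed
    (fun x => opL F x ∪ PL (E ∩ Ioi x))
    (fun x => (opL_countable hT hC.cnt x).union (PL_spec hT _).2.1)
    ({x0} ∪ H) ((countable_singleton x0).union hHc)
  have hDne : D.Nonempty := ⟨x0, hD0 (Or.inl rfl)⟩
  have hcl : Cl F D := cl_of_op hT hDne (fun x hx => subset_union_left.trans (hDcl x hx))
  obtain ⟨e, he, heD⟩ : ∃ e ∈ E, e ∉ D := by
    by_contra hcon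
    push Not at hcon
    exact hEc (hDc.mono hcon)
  obtain ⟨m, -, h1, h2, h3⟩ := cell_min h hC D hDc hcl e (mem_univ _) heD
  have hme : m ≤ e := h2 e (fun d _ hd => hd)
  have hmH : m ∈ H := by
    intro W hW hmW
    obtain ⟨V', hV', hVo, hmV', hVV⟩ := h.nhd hW hmW
    obtain ⟨d, hd, hdm, hdV⟩ := h3 V' hV' hmV'
    have hde : d < e := lt_of_lt_of_le hdm hme
    obtain ⟨p, hp, hpe⟩ := (PL_spec hT (E ∩ Ioi d)).2.2 e ⟨he, hde⟩
    have hp2 := (PL_spec hT (E ∩ Ioi d)).1 hp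
    have hpD : p ∈ D := hDcl d hd (Or.inr hp)
    have hpe' : p < e := lt_of_le_of_ne hpe (fun h => heD (h ▸ hpD))
    have hpm : p < m := h1 p hpD hpe'
    exact ⟨p, hp2.1, hVV (hVo.out hdV hmV' ⟨(hp2.2 : d < p).le, hpm.le⟩), hpm.ne⟩
  have hmD : m ∈ D := hD0 (Or.inr hmH)
  have hme' : m < e := lt_of_le_of_ne hme (fun h => heD (h ▸ hmD))
  exact lt_irrefl _ (h1 m hmD hme')

/-- the main separation theorem: a countable set whose cells are all degenerate -/
theorem exists_sep (h : GO X) (hS : ∀ Y : Set X, ∃ F K, Sig Y F K)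
    {F K : Set (Set X)} (hC : CSig univ F K) :
    ∃ D : Set X, D.Countable ∧ ∀ x, x ∉ D → ∀ y, y ≠ x → ∃ d ∈ D, d ∈ uIcc x y := by
  rcases isEmpty_or_nonempty X with hX | ⟨⟨x0⟩⟩
  · exact ⟨∅, countable_empty, fun x => (hX.false x).elim⟩
  have hT := tame h hS hC
  obtain ⟨FY, KY, hY⟩ := hS (Qt X)ᶜ
  have hCY : CSig (Qt X)ᶜ (⋃ n, FY n) KY := by
    refine ⟨countable_iUnion fun n => lf_countable h hT hC (FY n) (hY.sub n) (hY.lf n),
      hY.ksub, hY.cov, hY.cc, ?_⟩
    intro k hk U hU hkU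
    obtain ⟨n, s, hs, h1, h2⟩ := hY.net k hk U hU hkU
    exact ⟨s, mem_iUnion.mpr ⟨n, hs⟩, h1, h2⟩
  obtain ⟨D, hDc, hD0, hDcl⟩ := exists_closed
    (fun x => ((opL F x ∪ opR (⋃ n, FY n) x) ∪ anc x) ∪ {q | IsGreatest (Jt x) q})
    (fun x => (((opL_countable hT hC.cnt x).union (opR_countable hT hCY.cnt x)).union
      (anc_countable hT x)).union
      (Set.Subsingleton.countable (fun a ha b hb => ha.unique hb)))
    {x0} (countable_singleton x0)
  have hDne : D.Nonempty := ⟨x0, hD0 rfl⟩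
  have hcl : Cl F D := cl_of_op hT hDne
    (fun x hx => ((subset_union_left.trans subset_union_left).trans subset_union_left).trans
      (hDcl x hx))
  have hcr : Cr (⋃ n, FY n) D := cr_of_op hT hDne
    (fun x hx => ((subset_union_right.trans subset_union_left).trans subset_union_left).trans
      (hDcl x hx))
  have hanc : ∀ d ∈ D, anc d ⊆ D :=
    fun x hx => (subset_union_right.trans subset_union_left).trans (hDcl x hx)
  have hmax : ∀ d ∈ D, ∀ q, IsGreatest (Jt d) q → q ∈ D :=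
    fun x hx q hq => hDcl x hx (Or.inr hq)
  refine ⟨D, hDc, ?_⟩
  intro a haD y hya
  by_contra hcon
  push Not at hcon
  have hyc : y ∈ cell D a := hcon
  obtain ⟨m, -, hm⟩ := cell_least h hC D hDc hcl a (mem_univ _) haD
  have hmQ : m ∉ Qt X := least_not_Q hanc hmax hm
  have hmD : m ∉ D := fun hmD => hm.1 m hmD right_mem_uIcc
  obtain ⟨M, hMQ, hM⟩ := cell_greatest h hCY D hDc hcr m hmQ hmD
  rw [cell_congr hm.1] at hM
  obtain ⟨x, hx⟩ := cell_eq hanc haD
  apply hMQ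
  refine ⟨x, hx ▸ hM, ?_⟩
  rw [← hx]
  by_cases haM : a = M
  · exact ⟨y, hyc, haM ▸ hya⟩
  · exact ⟨a, mem_cell_self haD, haM⟩

end
end Pool.Agent.Helper648.HS
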