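import Pool.Agent.Helper648.HS.Wf
set_option autoImplicit false
namespace Pool.Agent.Helper648.HS
open Set Topology

section
variable {X : Type} [LinearOrder X] [TopologicalSpace X]

/-- closing off condition, right version -/
def Cr {X : Type} [LinearOrder X] (F : Set (Set X)) (D : Set X) : Prop :=
  ∀ s ∈ F, (∀ d ∈ D, ∀ z ∈ s, z < d → ∃ p ∈ s ∩ D, p < d ∧ z ≤ p) ∧
    (∀ z ∈ s, ∃ p ∈ s ∩ D, z ≤ p)

theorem cell_max (h : GO X) {Z : Set X} {F K : Set (Set X)} (hC : CSig Z F K) (D : Set X)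
    (hD : D.Countable) (hcl : Cr F D) (z : X) (hz : z ∈ Z) (hzD : z ∉ D) :
    ∃ m ∈ Z, (∀ d ∈ D, z < d → m < d) ∧ (∀ y, (∀ d ∈ D, z < d → y < d) → y ≤ m) := by
  have hC' : CSig (X := Xᵒᵈ) Z F K := ⟨hC.cnt, hC.ksub, hC.cov, hC.cc, hC.net⟩
  obtain ⟨m, hm, h1, h2, -⟩ := cell_min (X := Xᵒᵈ) h.dual hC' D hD hcl z hz hzD
  exact ⟨m, hm, h1, h2⟩

theorem wf_countable' (h : GO X) (hS : ∀ Y : Set X, ∃ F K, Sig Y F K)
    {F : Set (Set X)} {K : Set (Set X)} (hC : CSig univ F K) (W : Set X)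
    (hW : W.WellFoundedOn (· > ·)) : W.Countable := by
  have hC' : CSig (X := Xᵒᵈ) univ F K := ⟨hC.cnt, hC.ksub, hC.cov, hC.cc, hC.net⟩
  have hS' : ∀ Y : Set Xᵒᵈ, ∃ F K, Sig Y F K := by
    intro Y
    obtain ⟨F, K, hFK⟩ := hS Y
    exact ⟨F, K, hFK.sub, hFK.lf, hFK.ksub, hFK.cov, hFK.cc, hFK.net⟩
  exact wf_countable (X := Xᵒᵈ) h.dual hS' hC' W hW

/-- the hypothesis that all subsets have countable coinitial and cofinal subsets, together with
countability of well-ordered subsets -/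
structure Tame (X : Type) [LinearOrder X] : Prop where
  wl : ∀ W : Set X, W.WellFoundedOn (· < ·) → W.Countable
  wr : ∀ W : Set X, W.WellFoundedOn (· > ·) → W.Countable

theorem tame (h : GO X) (hS : ∀ Y : Set X, ∃ F K, Sig Y F K)
    {F : Set (Set X)} {K : Set (Set X)} (hC : CSig univ F K) : Tame X :=
  ⟨wf_countable h hS hC, wf_countable' h hS hC⟩

omit [TopologicalSpace X] in
theorem Tame.right (hT : Tame X) (G : Set X) :
    ∃ P ⊆ G, P.Countable ∧ ∀ g ∈ G, ∃ p ∈ P, g ≤ p := exists_cofinal hT.wl G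

omit [TopologicalSpace X] in
theorem Tame.left (hT : Tame X) (G : Set X) :
    ∃ P ⊆ G, P.Countable ∧ ∀ g ∈ G, ∃ p ∈ P, p ≤ g :=
  exists_cofinal (X := Xᵒᵈ) hT.wr G

open Classical in
/-- chosen coinitial subset -/
noncomputable def PL (G : Set X) : Set X :=
  if hh : ∃ P ⊆ G, P.Countable ∧ ∀ g ∈ G, ∃ p ∈ P, p ≤ g then hh.choose else ∅

open Classical in
/-- chosen cofinal subset -/
noncomputable def PR (G : Set X) : Set X :=
  if hh : ∃ P ⊆ G, P.Countable ∧ ∀ g ∈ G, ∃ p ∈ P, g ≤ p then hh.choose else ∅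

omit [TopologicalSpace X] in
theorem PL_spec (hT : Tame X) (G : Set X) :
    PL G ⊆ G ∧ (PL G).Countable ∧ ∀ g ∈ G, ∃ p ∈ PL G, p ≤ g := by
  have := hT.left G
  unfold PL
  rw [dif_pos this]
  exact this.choose_spec

omit [TopologicalSpace X] in
theorem PR_spec (hT : Tame X) (G : Set X) :
    PR G ⊆ G ∧ (PR G).Countable ∧ ∀ g ∈ G, ∃ p ∈ PR G, g ≤ p := by
  have := hT.right G
  unfold PR
  rw [dif_pos this]
  exact this.choose_spec

/-- left closing operation -/
noncomputable def opL (F : Set (Set X)) (d : X) : Set X := ⋃ s ∈ F, (PL (s ∩ Ioi d) ∪ PL s)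
/-- right closing operation -/
noncomputable def opR (F : Set (Set X)) (d : X) : Set X := ⋃ s ∈ F, (PR (s ∩ Iio d) ∪ PR s)

omit [TopologicalSpace X] in
theorem opL_countable (hT : Tame X) {F : Set (Set X)} (hF : F.Countable) (d : X) :
    (opL F d).Countable :=
  hF.biUnion fun _ _ => (PL_spec hT _).2.1.union (PL_spec hT _).2.1

omit [TopologicalSpace X] in
theorem opR_countable (hT : Tame X) {F : Set (Set X)} (hF : F.Countable) (d : X) :
    (opR F d).Countable :=
  hF.biUnion fun _ _ => (PR_spec hT _).2.1.union (PR_spec hT _).2.1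

omit [TopologicalSpace X] in
theorem cl_of_op (hT : Tame X) {F : Set (Set X)} {D : Set X} (hne : D.Nonempty)
    (hD : ∀ x ∈ D, opL F x ⊆ D) : Cl F D := by
  intro s hs
  constructor
  · intro d hd z hz hdz
    obtain ⟨p, hp, hpz⟩ := (PL_spec hT (s ∩ Ioi d)).2.2 z ⟨hz, hdz⟩
    have hp2 := (PL_spec hT (s ∩ Ioi d)).1 hp
    exact ⟨p, ⟨hp2.1, hD d hd (mem_biUnion hs (Or.inl hp))⟩, hp2.2, hpz⟩
  · intro z hz
    obtain ⟨d, hd⟩ := hne
    obtain ⟨p, hp, hpz⟩ := (PL_spec hT s).2.2 z hz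
    exact ⟨p, ⟨(PL_spec hT s).1 hp, hD d hd (mem_biUnion hs (Or.inr hp))⟩, hpz⟩

omit [TopologicalSpace X] in
theorem cr_of_op (hT : Tame X) {F : Set (Set X)} {D : Set X} (hne : D.Nonempty)
    (hD : ∀ x ∈ D, opR F x ⊆ D) : Cr F D := by
  intro s hs
  constructor
  · intro d hd z hz hdz
    obtain ⟨p, hp, hpz⟩ := (PR_spec hT (s ∩ Iio d)).2.2 z ⟨hz, hdz⟩
    have hp2 := (PR_spec hT (s ∩ Iio d)).1 hp
    exact ⟨p, ⟨hp2.1, hD d hd (mem_biUnion hs (Or.inl hp))⟩, hp2.2, hpz⟩
  · intro z hz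
    obtain ⟨d, hd⟩ := hne
    obtain ⟨p, hp, hpz⟩ := (PR_spec hT s).2.2 z hz
    exact ⟨p, ⟨(PR_spec hT s).1 hp, hD d hd (mem_biUnion hs (Or.inr hp))⟩, hpz⟩

/-! ### the tree of a well ordering -/

/-- the set of descendants of `x` -/
def Jt (x : X) : Set X := {y | ∀ z ∈ uIcc x y, ¬ WellOrderingRel z x}

omit [TopologicalSpace X] in
theorem self_mem_Jt (x : X) : x ∈ Jt x := by
  intro z hz
  rw [uIcc_self, mem_singleton_iff] at hz
  subst hz
  exact irrefl_of WellOrderingRel z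

omit [TopologicalSpace X] in
theorem Jt_conv (x : X) : (Jt x).OrdConnected := by
  refine ⟨fun y hy y' hy' w hw z hz => ?_⟩
  have : z ∈ uIcc x y ∨ z ∈ uIcc x y' := by
    simp only [mem_uIcc] at hz ⊢
    obtain ⟨h1, h2⟩ := hw
    rcases hz with ⟨h3, h4⟩ | ⟨h3, h4⟩
    · right; left; exact ⟨h3, h4.trans h2⟩
    · left; right; exact ⟨h1.trans h3, h4⟩
  rcases this with h1 | h1
  · exact hy z h1
  · exact hy' z h1

/-- ancestors -/
def anc (y : X) : Set X := {x | y ∈ Jt x}

omit [TopologicalSpace X] in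
theorem anc_countable (hT : Tame X) (y : X) : (anc y).Countable := by
  have hr : WellFounded (WellOrderingRel : X → X → Prop) :=
    (inferInstance : IsWellFounded X WellOrderingRel).wf
  have h1 : (anc y ∩ Iio y).Countable := by
    apply hT.wl
    rw [Set.wellFoundedOn_iff]
    refine Subrelation.wf ?_ hr
    rintro a b ⟨hab, ha, hb⟩
    have h2 : b ∈ uIcc a y := by
      rw [mem_uIcc]; left; exact ⟨hab.le, hb.2.le⟩
    have h3 := ha.1 b h2
    rcases trichotomous_of WellOrderingRel a b with h | h | h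
    · exact h
    · exact absurd h hab.ne
    · exact absurd h h3
  have h2 : (anc y ∩ Ioi y).Countable := by
    apply hT.wr
    rw [Set.wellFoundedOn_iff]
    refine Subrelation.wf ?_ hr
    rintro a b ⟨hab, ha, hb⟩
    have h2 : b ∈ uIcc a y := by
      rw [mem_uIcc]; right; exact ⟨hb.2.le, hab.le⟩
    have h3 := ha.1 b h2
    rcases trichotomous_of WellOrderingRel a b with h | h | h
    · exact h
    · exact absurd h hab.ne'
    · exact absurd h h3
  refine ((h1.union h2).union (countable_singleton y)).mono ?_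
  intro x hx
  rcases lt_trichotomy x y with h | h | h
  · exact Or.inl (Or.inl ⟨hx, h⟩)
  · exact Or.inr h
  · exact Or.inl (Or.inr ⟨hx, h⟩)

/-- the set of maxima of nondegenerate `Jt x` -/
def Qt (X : Type) [LinearOrder X] : Set X := {q | ∃ x : X, IsGreatest (Jt x) q ∧ ∃ y ∈ Jt x, y ≠ q}

/-- the cell of `h` with respect to `D` -/
def cell (D : Set X) (a : X) : Set X := {y | ∀ d ∈ D, d ∉ uIcc a y}

omit [TopologicalSpace X] in
theorem mem_cell_self {D : Set X} {a : X} (ha : a ∉ D) : a ∈ cell D a := by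
  intro d hd hd2
  rw [uIcc_self, mem_singleton_iff] at hd2
  exact ha (hd2 ▸ hd)

omit [TopologicalSpace X] in
theorem uIcc_sub3 {a b c z : X} (hz : z ∈ uIcc a c) : z ∈ uIcc a b ∨ z ∈ uIcc b c := by
  have := uIcc_subset_uIcc_union_uIcc (a := a) (b := b) (c := c) hz
  exact this

omit [TopologicalSpace X] in
theorem cell_congr {D : Set X} {a m : X} (hm : m ∈ cell D a) : cell D m = cell D a := by
  ext y
  constructor
  · intro hy d hd hd2
    rcases uIcc_sub3 (b := m) hd2 with h1 | h1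
    · exact hm d hd h1
    · exact hy d hd h1
  · intro hy d hd hd2
    rcases uIcc_sub3 (b := a) hd2 with h1 | h1
    · exact hm d hd (uIcc_comm a m ▸ h1)
    · exact hy d hd h1

omit [TopologicalSpace X] in
/-- cells of a set closed under ancestors are of the form `Jt x` -/
theorem cell_eq {D : Set X} (hD : ∀ d ∈ D, anc d ⊆ D) {a : X} (ha : a ∉ D) :
    ∃ x, cell D a = Jt x := by
  have hr : WellFounded (WellOrderingRel : X → X → Prop) :=
    (inferInstance : IsWellFounded X WellOrderingRel).wf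
  obtain ⟨x, hx, hmin⟩ := hr.has_min (cell D a) ⟨a, mem_cell_self ha⟩
  have hsub : cell D a ⊆ Jt x := by
    intro y hy z hz hzx
    refine hmin z ?_ hzx
    intro d hd hd2
    -- d between a and z, z between x and y
    have : d ∈ uIcc a x ∨ d ∈ uIcc a y := by
      simp only [mem_uIcc] at hz hd2 ⊢
      rcases hz with ⟨h1, h2⟩ | ⟨h1, h2⟩ <;> rcases hd2 with ⟨h3, h4⟩ | ⟨h3, h4⟩
      · right; left; exact ⟨h3, h4.trans h2⟩
      · left; right; exact ⟨h1.trans h3, h4⟩
      · left; left; exact ⟨h3, h4.trans h2⟩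
      · right; right; exact ⟨h1.trans h3, h4⟩
    rcases this with h1 | h1
    · exact hx d hd h1
    · exact hy d hd h1
  refine ⟨x, Subset.antisymm hsub ?_⟩
  intro y hy d hd hd2
  have ha' : a ∈ Jt x := hsub (mem_cell_self ha)
  have hdJ : d ∈ Jt x := by
    rw [mem_uIcc] at hd2
    rcases hd2 with h1 | h1
    · exact (Jt_conv x).out ha' hy h1
    · exact (Jt_conv x).out hy ha' h1
  have hxD : x ∈ D := hD d hd hdJ
  exact hx x hxD right_mem_uIcc

/-- minimum of a cell -/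
theorem cell_least (h : GO X) {Z : Set X} {F K : Set (Set X)} (hC : CSig Z F K) (D : Set X)
    (hD : D.Countable) (hcl : Cl F D) (z : X) (hz : z ∈ Z) (hzD : z ∉ D) :
    ∃ m ∈ Z, IsLeast (cell D z) m := by
  obtain ⟨m, hm, h1, h2, -⟩ := cell_min h hC D hD hcl z hz hzD
  have hmz : m ≤ z := h2 z (fun d _ hd => hd)
  refine ⟨m, hm, ?_, ?_⟩
  · intro d hd hd2
    rw [uIcc_of_ge hmz] at hd2
    have h3 : d < z := lt_of_le_of_ne hd2.2 (fun e => hzD (e ▸ hd))
    exact absurd hd2.1 (not_le.mpr (h1 d hd h3))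
  · intro y hy
    apply h2
    intro d hd hdz
    by_contra hcon
    push Not at hcon
    exact hy d hd (by rw [mem_uIcc]; right; exact ⟨hcon, hdz.le⟩)

theorem cell_greatest (h : GO X) {Z : Set X} {F K : Set (Set X)} (hC : CSig Z F K) (D : Set X)
    (hD : D.Countable) (hcl : Cr F D) (z : X) (hz : z ∈ Z) (hzD : z ∉ D) :
    ∃ m ∈ Z, IsGreatest (cell D z) m := by
  obtain ⟨m, hm, h1, h2⟩ := cell_max h hC D hD hcl z hz hzD
  have hmz : z ≤ m := h2 z (fun d _ hd => hd)
  refine ⟨m, hm, ?_, ?_⟩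
  · intro d hd hd2
    rw [uIcc_of_le hmz] at hd2
    have h3 : z < d := lt_of_le_of_ne hd2.1 (fun e => hzD (e ▸ hd))
    exact absurd hd2.2 (not_le.mpr (h1 d hd h3))
  · intro y hy
    apply h2
    intro d hd hdz
    by_contra hcon
    push Not at hcon
    exact hy d hd (by rw [mem_uIcc]; left; exact ⟨hdz.le, hcon⟩)

omit [TopologicalSpace X] in
/-- the minimum of a cell of a closed-off set is not in `Qt` -/
theorem least_not_Q {D : Set X} (hD : ∀ d ∈ D, anc d ⊆ D)
    (hD2 : ∀ d ∈ D, ∀ q, IsGreatest (Jt d) q → q ∈ D) {a m : X}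
    (hm : IsLeast (cell D a) m) : m ∉ Qt X := by
  rintro ⟨y, hy, w, hw, hwm⟩
  have hmD : m ∉ D := fun hmD => hm.1 m hmD right_mem_uIcc
  by_cases hJ : ∃ d ∈ D, d ∈ Jt y
  · obtain ⟨d, hd, hdJ⟩ := hJ
    exact hmD (hD2 y (hD d hd hdJ) m hy)
  · push Not at hJ
    have hwc : w ∈ cell D a := by
      rw [← cell_congr hm.1]
      intro d hd hd2
      refine hJ d hd ?_
      rw [mem_uIcc] at hd2
      rcases hd2 with h1 | h1
      · exact (Jt_conv y).out hy.1 hw h1
      · exact (Jt_conv y).out hw hy.1 h1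
    exact hwm (le_antisymm (hy.2 hw) (hm.2 hwc))

/-- closed subsets of `Qt` are countable -/
theorem closed_countable (h : GO X) (hT : Tame X) {F K : Set (Set X)} (hC : CSig univ F K)
    (H : Set X) (hH : IsClosed H) (hHQ : H ⊆ Qt X) : H.Countable := by
  rcases isEmpty_or_nonempty X with hX | ⟨⟨x0⟩⟩
  · exact Set.to_countable _
  have hCH := hC.closed hH (subset_univ _)
  obtain ⟨D, hDc, hD0, hDcl⟩ := exists_closed
    (fun x => (opL ((fun s => s ∩ H) '' F) x ∪ anc x) ∪ {q | IsGreatest (Jt x) q})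
    (fun x => ((opL_countable hT hCH.cnt x).union (anc_countable hT x)).union
      (Set.Subsingleton.countable (fun a ha b hb => ha.unique hb)))
    {x0} (countable_singleton x0)
  have hDne : D.Nonempty := ⟨x0, hD0 rfl⟩
  have hcl : Cl ((fun s => s ∩ H) '' F) D := cl_of_op hT hDne
    (fun x hx => (subset_union_left.trans subset_union_left).trans (hDcl x hx))
  have hanc : ∀ d ∈ D, anc d ⊆ D :=
    fun x hx => (subset_union_right.trans subset_union_left).trans (hDcl x hx)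
  have hmax : ∀ d ∈ D, ∀ q, IsGreatest (Jt d) q → q ∈ D :=
    fun x hx q hq => hDcl x hx (Or.inr hq)
  refine hDc.mono ?_
  intro a ha
  by_contra haD
  obtain ⟨m, hm, hml⟩ := cell_least h hCH D hDc hcl a ha haD
  exact least_not_Q hanc hmax hml (hHQ hm)

end
end Pool.Agent.Helper648.HS
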