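import Pool.Agent.Helper648.HS.NoLimit
import Pool.Agent.Helper648.HS.NoCC
set_option autoImplicit false
namespace Pool.Agent.Helper648.HS
open Set Topology

section
variable {X : Type} [LinearOrder X] [TopologicalSpace X]

omit [TopologicalSpace X] in
/-- countable subsets are bounded -/
theorem Om.bdd {A : Set X} (hA : Om A) (B : Set X) (hB : B.Countable) (hBA : B ⊆ A) :
    ∃ a ∈ A, ∀ b ∈ B, b < a := by
  by_contra hcon
  push Not at hcon
  apply hA.unc
  refine Countable.mono ?_ (hB.biUnion (fun b hb => ((hA.seg b (hBA hb)).union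
    (countable_singleton b))))
  intro a ha
  obtain ⟨b, hb, hab⟩ := hcon a ha
  refine mem_biUnion hb ?_
  rcases hab.lt_or_eq with h1 | h1
  · exact Or.inl ⟨ha, h1⟩
  · exact Or.inr h1

omit [TopologicalSpace X] in
theorem exists_om {W : Set X} (hW : W.WellFoundedOn (· < ·)) (hc : ¬ W.Countable) :
    ∃ A ⊆ W, Om A := by
  by_cases hseg : ∀ a ∈ W, (W ∩ Iio a).Countable
  · exact ⟨W, subset_refl _, ⟨hc, hseg, hW⟩⟩
  · push Not at hseg
    obtain ⟨a0, ha0, ha0c⟩ := hseg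
    have hne : {a | a ∈ W ∧ ¬ (W ∩ Iio a).Countable}.Nonempty := ⟨a0, ha0, ha0c⟩
    have hwf : ({a | a ∈ W ∧ ¬ (W ∩ Iio a).Countable} : Set X).WellFoundedOn (· < ·) :=
      hW.subset (fun a ha => ha.1)
    have hne' : (univ : Set ↥{a | a ∈ W ∧ ¬ (W ∩ Iio a).Countable}).Nonempty :=
      ⟨⟨a0, ha0, ha0c⟩, trivial⟩
    obtain ⟨⟨m, hm⟩, -, hmin⟩ := WellFounded.has_min hwf _ hne'
    refine ⟨W ∩ Iio m, inter_subset_left, ⟨hm.2, ?_, hW.subset inter_subset_left⟩⟩
    intro a ha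
    by_contra hcon
    have h2 : ¬ (W ∩ Iio a).Countable := by
      intro h3
      apply hcon
      refine Countable.mono ?_ h3
      rintro x ⟨⟨h4, -⟩, h5⟩
      exact ⟨h4, h5⟩
    exact hmin ⟨a, ha.1, h2⟩ trivial ha.2

/-- in a GO space which is hereditarily Σ and has a countable Σ-structure, every well-ordered
subset is countable -/
theorem wf_countable (h : GO X) (hS : ∀ Y : Set X, ∃ F K, Sig Y F K)
    {F : Set (Set X)} {K : Set (Set X)} (hC : CSig univ F K) (W : Set X)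
    (hW : W.WellFoundedOn (· < ·)) : W.Countable := by
  by_contra hWc
  obtain ⟨A, -, hA⟩ := exists_om hW hWc
  have hnomax : ∀ a ∈ A, ∃ b ∈ A, a < b := by
    intro a ha
    obtain ⟨b, hb, h1⟩ := hA.bdd {a} (countable_singleton a) (singleton_subset_iff.mpr ha)
    exact ⟨b, hb, h1 a rfl⟩
  -- choose a0
  let B : Set X := ⋃ s ∈ {s ∈ F | (A ∩ s).Countable}, A ∩ s
  have hB : B.Countable := (hC.cnt.mono (fun s hs => hs.1)).biUnion (fun s hs => hs.2)
  obtain ⟨a0, ha0, ha0B⟩ : ∃ a ∈ A, a ∉ B := by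
    by_contra hcon
    push Not at hcon
    exact hA.unc (hB.mono hcon)
  obtain ⟨k, hk, ha0k⟩ := hC.cov a0 (mem_univ _)
  have hunc : ∀ s ∈ F, k ⊆ s → ¬ (A ∩ s).Countable := by
    intro s hs hks hcon
    exact ha0B (mem_biUnion (x := s) ⟨hs, hcon⟩ ⟨ha0, hks ha0k⟩)
  let B' : Set X := {z | ∀ a ∈ A, a < z}
  have hB' : IsOpen B' := by
    rw [isOpen_iff_mem_nhds]
    intro z hz
    have hzc : z ∉ closure A := fun hcl => no_limit X h hS A hA z hz hcl
    obtain ⟨V, hV, hVo, hzV, hVs⟩ := h.nhd isClosed_closure.isOpen_compl hzc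
    refine Filter.mem_of_superset (hV.mem_nhds hzV) ?_
    intro w hw a ha
    by_contra hcon
    push Not at hcon
    exact hVs (hVo.out hw hzV ⟨hcon, (hz a ha).le⟩) (subset_closure ha)
  refine no_cc X h hS A hA k (hC.cc k hk) ?_
  intro a ha
  obtain ⟨a', ha', haa'⟩ := hnomax a ha
  have hnot : ¬ k ⊆ Iio a' ∪ B' := by
    intro hcon
    obtain ⟨s, hs, h1, h2⟩ := hC.net k hk _ ((h.ray a').2.union hB') hcon
    apply hunc s hs h1
    refine (hA.seg a' ha').mono ?_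
    rintro b ⟨hb, hbs⟩
    rcases h2 hbs with h3 | h3
    · exact ⟨hb, h3⟩
    · exact absurd (h3 b hb) (lt_irrefl _)
  obtain ⟨z, hz, hz2⟩ := not_subset.mp hnot
  have h3 : a' ≤ z := by
    by_contra hcon
    exact hz2 (Or.inl (not_le.mp hcon))
  have h4 : ∃ b ∈ A, z ≤ b := by
    by_contra hcon
    push Not at hcon
    exact hz2 (Or.inr hcon)
  obtain ⟨b, hb, hzb⟩ := h4
  obtain ⟨b', hb', hbb'⟩ := hnomax b hb
  exact ⟨z, hz, lt_of_lt_of_le haa' h3, b', hb', lt_of_le_of_lt hzb hbb'⟩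

end
end Pool.Agent.Helper648.HS
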